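import Mathlib

set_option autoImplicit false

namespace Pool.Agent.H806R2.Chuaqui

open MeasureTheory Set Filter
open scoped Pointwise ENNReal

/-- Infinitely many copies of `A` can be packed into `X`. -/
def Packed (G : Type) {X : Type} [Group G] [MulAction G X] (A : Set X) : Prop :=
  ∃ B : ℕ → Set X, Pairwise (Function.onFun Disjoint B) ∧
    ∀ n, ∃ (P : ℕ → Set X) (g : ℕ → G),
      Pairwise (Function.onFun Disjoint P) ∧ (⋃ i, P i) = A ∧
      Pairwise (Function.onFun Disjoint (fun i => g i • P i)) ∧
      (⋃ i, g i • P i) = B n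

variable {G X : Type} [Group G] [MulAction G X]

/-- The upper limit of translates `g n • A n` of pairwise disjoint sets is packed. -/
lemma packed_limsup (A : ℕ → Set X) (hA : Pairwise (Function.onFun Disjoint A)) (g : ℕ → G) :
    Packed G {x : X | ∃ᶠ n in atTop, x ∈ g n • A n} := by
  classical
  set B : Set X := {x : X | ∃ᶠ n in atTop, x ∈ g n • A n} with hB
  have hinf : ∀ x ∈ B, (setOf (fun n => x ∈ g n • A n)).Infinite := by
    intro x hx
    exact Nat.frequently_atTop_iff_infinite.mp hx
  let P : ℕ → ℕ → Set X := fun k i => {x | x ∈ B ∧ Nat.nth (fun n => x ∈ g n • A n) k = i}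
  have hPsub : ∀ k i x, x ∈ P k i → x ∈ g i • A i := by
    intro k i x hx
    obtain ⟨h1, h2⟩ := hx
    have := Nat.nth_mem_of_infinite (hinf x h1) k
    rw [h2] at this
    exact this
  have hPsub' : ∀ k i y, y ∈ (g i)⁻¹ • P k i → y ∈ A i ∧ (g i) • y ∈ P k i := by
    intro k i y hy
    rw [Set.mem_inv_smul_set_iff] at hy
    have := hPsub k i _ hy
    rw [Set.smul_mem_smul_set_iff] at this
    exact ⟨this, hy⟩
  refine ⟨fun k => ⋃ i, (g i)⁻¹ • P k i, ?_, ?_⟩
  · intro k l hkl
    rw [Function.onFun, Set.disjoint_left]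
    intro y hy1 hy2
    obtain ⟨i, hi⟩ := Set.mem_iUnion.mp hy1
    obtain ⟨j, hj⟩ := Set.mem_iUnion.mp hy2
    obtain ⟨a1, a2⟩ := hPsub' k i y hi
    obtain ⟨b1, b2⟩ := hPsub' l j y hj
    have hij : i = j := by
      by_contra hne
      exact Set.disjoint_left.mp (hA hne) a1 b1
    subst hij
    obtain ⟨c1, c2⟩ := a2
    obtain ⟨d1, d2⟩ := b2
    exact hkl (Nat.nth_injective (hinf _ c1) (c2.trans d2.symm))
  · intro k
    refine ⟨P k, fun i => (g i)⁻¹, ?_, ?_, ?_, rfl⟩
    · intro i j hij
      rw [Function.onFun, Set.disjoint_left]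
      intro x h1 h2
      exact hij (h1.2.symm.trans h2.2)
    · ext x
      simp only [Set.mem_iUnion]
      constructor
      · rintro ⟨i, hi⟩
        exact hi.1
      · intro hx
        exact ⟨_, hx, rfl⟩
    · intro i j hij
      rw [Function.onFun, Set.disjoint_left]
      intro y h1 h2
      exact Set.disjoint_left.mp (hA hij) (hPsub' k i y h1).1 (hPsub' k j y h2).1

/-- A set with infinitely many pairwise disjoint translates is packed. -/
lemma packed_of_translates (W : Set X) (g : ℕ → G)
    (h : Pairwise (Function.onFun Disjoint (fun n => g n • W))) : Packed G W := by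
  classical
  refine ⟨fun n => g n • W, h, fun n => ⟨fun i => if i = 0 then W else ∅, fun _ => g n, ?_, ?_, ?_, ?_⟩⟩
  · intro i j hij
    rw [Function.onFun]
    by_cases hi : i = 0
    · have hj : j ≠ 0 := fun h => hij (hi.trans h.symm)
      simp [hj]
    · simp [hi]
  · ext x
    simp
  · intro i j hij
    rw [Function.onFun]
    by_cases hi : i = 0
    · have hj : j ≠ 0 := fun h => hij (hi.trans h.symm)
      simp [hj]
    · simp [hi]
  · ext x
    simp only [Set.mem_iUnion]
    constructor
    · rintro ⟨i, hi⟩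
      by_cases h0 : i = 0
      · simpa [h0] using hi
      · simp [h0] at hi
    · intro hx
      exact ⟨0, by simpa using hx⟩

variable [MeasurableSpace X] [DiscreteMeasurableSpace X]

/-- Disjoint sets cannot have translates of measure bounded below. -/
lemma no_spread (M : Measure X) [IsFiniteMeasure M] (hM : ∀ A : Set X, Packed G A → M A = 0)
    (A : ℕ → Set X) (hA : Pairwise (Function.onFun Disjoint A)) (g : ℕ → G) (ε : ℝ≥0∞)
    (hε : 0 < ε) (h : ∀ n, ε ≤ M (g n • A n)) : False := by
  have h0 := hM _ (packed_limsup A hA g)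
  have hset : {x : X | ∃ᶠ n in atTop, x ∈ g n • A n} = ⋂ N : ℕ, ⋃ n, ⋃ (_ : N ≤ n), g n • A n := by
    ext x
    simp only [Set.mem_setOf_eq, Set.mem_iInter, Set.mem_iUnion, frequently_atTop, exists_prop]
  rw [hset] at h0
  have hanti : Antitone (fun N : ℕ => ⋃ n, ⋃ (_ : N ≤ n), g n • A n) := by
    intro N N' hN x hx
    simp only [Set.mem_iUnion, exists_prop] at hx ⊢
    obtain ⟨n, hn, hx⟩ := hx
    exact ⟨n, hN.trans hn, hx⟩
  have hlim := tendsto_measure_iInter_atTop (μ := M)
    (s := fun N : ℕ => ⋃ n, ⋃ (_ : N ≤ n), g n • A n)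
    (fun N => MeasurableSet.of_discrete.nullMeasurableSet) hanti ⟨0, measure_ne_top _ _⟩
  rw [h0] at hlim
  have hge : ∀ N : ℕ, ε ≤ M (⋃ n, ⋃ (_ : N ≤ n), g n • A n) := by
    intro N
    refine (h N).trans (measure_mono ?_)
    intro x hx
    simp only [Set.mem_iUnion, exists_prop]
    exact ⟨N, le_refl _, hx⟩
  have := ge_of_tendsto' hlim hge
  exact absurd this (not_le.mpr hε)

/-- The supremum of the measures of translates of sets that are null for the first translates. -/
noncomputable def defect (G : Type) [Group G] [MulAction G X] (M : Measure X) (C : Set G) : ℝ≥0∞ :=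
  ⨆ (A : Set X) (_ : ∀ c ∈ C, M (c • A) = 0) (g : G), M (g • A)

/-- There is a sequence of group elements whose translates control all translates. -/
lemma exists_seq (M : Measure X) [IsFiniteMeasure M] (hM : ∀ A : Set X, Packed G A → M A = 0) :
    ∃ g : ℕ → G, ∀ A : Set X, (∀ n, M (g n • A) = 0) → ∀ h : G, M (h • A) = 0 := by
  classical
  -- one step
  have step : ∀ C : Set G, ∃ (g : G) (A : Set X), (∀ c ∈ C, M (c • A) = 0) ∧
      defect G M C / 2 ≤ M (g • A) := by
    intro C
    rcases eq_or_ne (defect G M C) 0 with h0 | h0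
    · exact ⟨1, ∅, by simp, by simp [h0]⟩
    · have hfin : defect G M C ≠ ⊤ := by
        refine ne_top_of_le_ne_top (measure_ne_top M univ) ?_
        unfold defect
        refine iSup_le fun A => iSup_le fun _ => iSup_le fun g => measure_mono (subset_univ _)
      have hlt : defect G M C / 2 < defect G M C := ENNReal.half_lt_self h0 hfin
      conv at hlt => rhs; unfold defect
      simp only [lt_iSup_iff] at hlt
      obtain ⟨A, hA, g, hg⟩ := hlt
      exact ⟨g, A, hA, hg.le⟩
  choose G' A' hA' hg' using step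
  -- the recursion: the list of the elements chosen so far
  let F : ℕ → Set G := fun n => Nat.rec (∅ : Set G) (fun _ C => insert (G' C) C) n
  have hF0 : F 0 = ∅ := rfl
  have hFs : ∀ n, F (n + 1) = insert (G' (F n)) (F n) := fun n => rfl
  have hFmono : Monotone F := monotone_nat_of_le_succ (fun n => by rw [hFs]; exact subset_insert _ _)
  let g : ℕ → G := fun n => G' (F n)
  let A : ℕ → Set X := fun n => A' (F n)
  have hgF : ∀ n m, n < m → g n ∈ F m := by
    intro n m hnm
    have : F (n + 1) ⊆ F m := hFmono hnm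
    apply this
    rw [hFs]; exact mem_insert _ _
  have hFsub : ∀ n, F n ⊆ range g := by
    intro n
    induction n with
    | zero => rw [hF0]; exact empty_subset _
    | succ n ih => rw [hFs]; exact insert_subset (mem_range_self n) ih
  have hnull : ∀ n m, n < m → M (g n • A m) = 0 := fun n m hnm => hA' (F m) _ (hgF n m hnm)
  -- the disjointified sets
  let D : ℕ → Set X := fun n => A n \ ⋃ m, ⋃ (_ : n < m), A m
  have hDdisj : Pairwise (Function.onFun Disjoint D) := by
    have key : ∀ n m, n < m → Disjoint (D n) (D m) := by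
      intro n m hnm
      rw [Set.disjoint_left]
      rintro x ⟨_, h2⟩ ⟨h3, _⟩
      apply h2
      simp only [Set.mem_iUnion, exists_prop]
      exact ⟨m, hnm, h3⟩
    intro n m hnm
    rcases lt_or_gt_of_ne hnm with h | h
    · exact key n m h
    · exact (key m n h).symm
  have hDmeas : ∀ n, M (g n • D n) = M (g n • A n) := by
    intro n
    apply le_antisymm
    · exact measure_mono (Set.smul_set_mono diff_subset)
    · have hsub : g n • A n ⊆ (g n • D n) ∪ ⋃ m, ⋃ (_ : n < m), g n • A m := by
        rintro x ⟨a, ha, rfl⟩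
        by_cases hx : a ∈ ⋃ m, ⋃ (_ : n < m), A m
        · right
          simp only [Set.mem_iUnion, exists_prop] at hx ⊢
          obtain ⟨m, hm, hx⟩ := hx
          exact ⟨m, hm, Set.smul_mem_smul_set hx⟩
        · left
          exact Set.smul_mem_smul_set ⟨ha, hx⟩
      have h0 : M (⋃ m, ⋃ (_ : n < m), g n • A m) = 0 := by
        rw [measure_iUnion_null_iff]
        intro m
        rw [measure_iUnion_null_iff]
        intro hm
        exact hnull n m hm
      calc M (g n • A n) ≤ M ((g n • D n) ∪ ⋃ m, ⋃ (_ : n < m), g n • A m) := measure_mono hsub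
        _ ≤ M (g n • D n) + M (⋃ m, ⋃ (_ : n < m), g n • A m) := measure_union_le _ _
        _ = M (g n • D n) := by rw [h0, add_zero]
  refine ⟨g, fun S hS h => ?_⟩
  by_contra hne
  have hpos : 0 < M (h • S) / 2 := ENNReal.div_pos hne (by simp)
  refine no_spread M hM D hDdisj g (M (h • S) / 2) hpos (fun n => ?_)
  rw [hDmeas]
  refine le_trans ?_ (hg' (F n))
  apply ENNReal.div_le_div_right
  unfold defect
  refine le_iSup_of_le S (le_iSup_of_le ?_ (le_iSup_of_le h le_rfl))
  intro c hc
  obtain ⟨k, rfl⟩ := hFsub n hc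
  exact hS k

end Pool.Agent.H806R2.Chuaqui
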