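import Mathlib

set_option autoImplicit false

namespace Pool.Agent.H806R2.Chuaqui

open MeasureTheory Set Filter
open scoped Pointwise ENNReal RealInnerProductSpace

variable {G X : Type} [Group G] [MulAction G X] [MeasurableSpace X] [DiscreteMeasurableSpace X]

/-- The translation by a group element. -/
def tr (g : G) : X ≃ᵐ X where
  toEquiv := MulAction.toPerm g
  measurable_toFun := .of_discrete
  measurable_invFun := .of_discrete

@[simp] lemma tr_apply (g : G) (x : X) : tr g x = g • x := rfl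

/-- The translated measure. -/
noncomputable def push (m : Measure X) (g : G) : Measure X := m.map (tr g)

lemma push_apply (m : Measure X) (g : G) (A : Set X) : push m g A = m (g⁻¹ • A) := by
  unfold push
  rw [Measure.map_apply (tr g).measurable MeasurableSet.of_discrete]
  congr 1
  ext x
  simp [Set.mem_inv_smul_set_iff]

instance (m : Measure X) [IsFiniteMeasure m] (g : G) : IsFiniteMeasure (push m g) := by
  unfold push; infer_instance

/-- The density of the translated measure. -/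
noncomputable def dens (m : Measure X) (g : G) : X → ℝ≥0∞ := (push m g).rnDeriv m

section

variable {m : Measure X} [IsFiniteMeasure m] (hq : ∀ g : G, push m g ≪ m)

include hq

lemma lintegral_push (g : G) (f : X → ℝ≥0∞) :
    ∫⁻ x, dens m g x * f (g⁻¹ • x) ∂m = ∫⁻ x, f x ∂m := by
  unfold dens
  rw [lintegral_rnDeriv_mul (hq g) Measurable.of_discrete.aemeasurable]
  unfold push
  rw [lintegral_map Measurable.of_discrete (tr g).measurable]
  simp

lemma setLIntegral_dens (g : G) (A : Set X) : ∫⁻ x in A, dens m g x ∂m = m (g⁻¹ • A) := by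
  unfold dens
  rw [Measure.setLIntegral_rnDeriv (hq g), push_apply]

lemma ae_smul (g : G) {p : X → Prop} (hp : ∀ᵐ x ∂m, p x) : ∀ᵐ x ∂m, p (g • x) := by
  have h1 : ∀ᵐ x ∂(push m g), p x := (hq g).ae_le hp
  unfold push at h1
  exact ae_of_ae_map (tr g).measurable.aemeasurable h1

lemma dens_lt_top (g : G) : ∀ᵐ x ∂m, dens m g x < ⊤ := Measure.rnDeriv_lt_top _ _

lemma dens_mul (h g : G) :
    ∀ᵐ x ∂m, dens m g (h⁻¹ • x) * dens m h x = dens m (h * g) x := by
  have h1 := (tr h : X ≃ᵐ X).measurableEmbedding.rnDeriv_map (push m g) m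
  have h2 : (push m g).map (tr h) = push m (h * g) := by
    unfold push
    rw [Measure.map_map (tr h).measurable (tr g).measurable]
    congr 1
    ext x
    simp [mul_smul]
  have h3 : m.map (tr h) = push m h := rfl
  rw [h2, h3] at h1
  have h4 := ae_smul hq h⁻¹ h1
  have h5 := Measure.rnDeriv_mul_rnDeriv (μ := push m (h * g)) (ν := push m h) (κ := m) (by
    -- `push (h*g) ≪ push h`
    rw [← h2, ← h3]
    exact (hq g).map (tr h).measurable)
  filter_upwards [h4, h5] with x hx4 hx5
  simp only [tr_apply, smul_inv_smul] at hx4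
  unfold dens
  rw [← hx4, ← hx5]
  rfl

end

/-- The square root of the density. -/
noncomputable def sq (m : Measure X) (g : G) (x : X) : ℝ := Real.sqrt (dens m g x).toReal

/-- The action on square roots of densities, at the level of functions. -/
noncomputable def uf (m : Measure X) (g : G) (f : X → ℝ) (x : X) : ℝ := f (g⁻¹ • x) * sq m g x

lemma enorm_uf_sq (m : Measure X) (g : G) (f : X → ℝ) (x : X) (hx : dens m g x < ⊤) :
    ‖uf m g f x‖ₑ ^ 2 = dens m g x * ‖f (g⁻¹ • x)‖ₑ ^ 2 := by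
  unfold uf sq
  rw [enorm_mul, mul_pow, mul_comm]
  congr 1
  rw [Real.enorm_of_nonneg (Real.sqrt_nonneg _), ← ENNReal.ofReal_pow (Real.sqrt_nonneg _),
    Real.sq_sqrt ENNReal.toReal_nonneg, ENNReal.ofReal_toReal hx.ne]

section

variable {m : Measure X} [IsFiniteMeasure m] (hq : ∀ g : G, push m g ≪ m)

include hq

lemma lintegral_uf (g : G) (f : X → ℝ) (A : Set X) :
    ∫⁻ x in g • A, ‖uf m g f x‖ₑ ^ 2 ∂m = ∫⁻ x in A, ‖f x‖ₑ ^ 2 ∂m := by
  have h1 : ∫⁻ x in g • A, ‖uf m g f x‖ₑ ^ 2 ∂m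
      = ∫⁻ x, dens m g x * (A.indicator (fun y => ‖f y‖ₑ ^ 2)) (g⁻¹ • x) ∂m := by
    rw [← lintegral_indicator MeasurableSet.of_discrete]
    apply lintegral_congr_ae
    filter_upwards [dens_lt_top hq g] with x hx
    by_cases hxA : x ∈ g • A
    · rw [Set.indicator_of_mem hxA, enorm_uf_sq m g f x hx]
      rw [Set.mem_smul_set_iff_inv_smul_mem] at hxA
      rw [Set.indicator_of_mem hxA]
    · rw [Set.indicator_of_notMem hxA]
      rw [Set.mem_smul_set_iff_inv_smul_mem] at hxA
      rw [Set.indicator_of_notMem hxA, mul_zero]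
  rw [h1, lintegral_push hq g, lintegral_indicator MeasurableSet.of_discrete]

lemma lintegral_uf_univ (g : G) (f : X → ℝ) :
    ∫⁻ x, ‖uf m g f x‖ₑ ^ 2 ∂m = ∫⁻ x, ‖f x‖ₑ ^ 2 ∂m := by
  have := lintegral_uf hq g f univ
  simpa using this

lemma eLpNorm_uf (g : G) (f : X → ℝ) : eLpNorm (uf m g f) 2 m = eLpNorm f 2 m := by
  rw [eLpNorm_eq_lintegral_rpow_enorm_toReal (by norm_num) (by norm_num),
    eLpNorm_eq_lintegral_rpow_enorm_toReal (by norm_num) (by norm_num)]
  congr 1
  have := lintegral_uf_univ hq g f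
  simpa using this

lemma memLp_uf (g : G) (f : Lp ℝ 2 m) : MemLp (uf m g f) 2 m := by
  refine ⟨Measurable.of_discrete.aestronglyMeasurable, ?_⟩
  rw [eLpNorm_uf hq]
  exact (Lp.memLp f).2

/-- The action on square integrable functions. -/
noncomputable def U (g : G) : Lp ℝ 2 m →ₗᵢ[ℝ] Lp ℝ 2 m where
  toFun f := (memLp_uf hq g f).toLp
  map_add' f f' := by
    apply Lp.ext
    have h1 := (memLp_uf hq g (f + f')).coeFn_toLp
    have h2 := (memLp_uf hq g f).coeFn_toLp
    have h3 := (memLp_uf hq g f').coeFn_toLp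
    have h4 := Lp.coeFn_add ((memLp_uf hq g f).toLp) ((memLp_uf hq g f').toLp)
    have h5 := ae_smul hq g⁻¹ (Lp.coeFn_add f f')
    filter_upwards [h1, h2, h3, h4, h5] with x x1 x2 x3 x4 x5
    rw [x1, x4, Pi.add_apply, x2, x3]
    unfold uf
    rw [x5, Pi.add_apply, add_mul]
  map_smul' c f := by
    apply Lp.ext
    have h1 := (memLp_uf hq g (c • f)).coeFn_toLp
    have h2 := (memLp_uf hq g f).coeFn_toLp
    have h4 := Lp.coeFn_smul c ((memLp_uf hq g f).toLp)
    have h5 := ae_smul hq g⁻¹ (Lp.coeFn_smul c f)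
    filter_upwards [h1, h2, h4, h5] with x x1 x2 x4 x5
    rw [x1, RingHom.id_apply, x4, Pi.smul_apply, x2]
    unfold uf
    rw [x5, Pi.smul_apply, smul_eq_mul, smul_eq_mul, mul_assoc]
  norm_map' f := by
    change ‖(memLp_uf hq g f).toLp‖ = ‖f‖
    rw [Lp.norm_toLp, eLpNorm_uf hq, Lp.norm_def]

lemma coeFn_U (g : G) (f : Lp ℝ 2 m) : U hq g f =ᵐ[m] uf m g f := (memLp_uf hq g f).coeFn_toLp

end

/-- The constant function one. -/
noncomputable def one2 (m : Measure X) [IsFiniteMeasure m] : Lp ℝ 2 m :=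
  (memLp_const (1 : ℝ)).toLp

section

variable {m : Measure X} [IsFiniteMeasure m] (hq : ∀ g : G, push m g ≪ m)

include hq

/-- The square root of the density as an element of the Hilbert space. -/
noncomputable def v (g : G) : Lp ℝ 2 m := U hq g (one2 m)

lemma coeFn_v (g : G) : v hq g =ᵐ[m] sq m g := by
  unfold v
  have h1 : (one2 m : X → ℝ) =ᵐ[m] fun _ => 1 := (memLp_const (1 : ℝ)).coeFn_toLp
  filter_upwards [coeFn_U hq g (one2 m), ae_smul hq g⁻¹ h1] with x x1 x2
  rw [x1]
  unfold uf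
  rw [x2, one_mul]

lemma U_v (h g : G) : U hq h (v hq g) = v hq (h * g) := by
  apply Lp.ext
  filter_upwards [coeFn_U hq h (v hq g), ae_smul hq h⁻¹ (coeFn_v hq g), coeFn_v hq (h * g),
    dens_mul hq h g] with x x1 x2 x3 x4
  rw [x1, x3]
  unfold uf
  rw [x2]
  unfold sq
  rw [← x4, ENNReal.toReal_mul, Real.sqrt_mul ENNReal.toReal_nonneg]

/-- The closed convex hull of the square roots of densities. -/
noncomputable def K : Set (Lp ℝ 2 m) := closure (convexHull ℝ (range (v hq)))

lemma K_convex : Convex ℝ (K hq) := (convex_convexHull ℝ _).closure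

lemma K_closed : IsClosed (K hq) := isClosed_closure

lemma v_mem_K (g : G) : v hq g ∈ K hq := subset_closure (subset_convexHull ℝ _ (mem_range_self g))

lemma U_maps_K (h : G) (f : Lp ℝ 2 m) (hf : f ∈ K hq) : U hq h f ∈ K hq := by
  have h1 : K hq ⊆ (U hq h) ⁻¹' (K hq) := by
    unfold K
    apply closure_minimal _ ((isClosed_closure).preimage (U hq h).continuous)
    apply convexHull_min
    · rintro _ ⟨g, rfl⟩
      rw [mem_preimage, U_v]
      exact v_mem_K hq (h * g)
    · exact ((convex_convexHull ℝ _).closure).linear_preimage (U hq h).toLinearMap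
  exact h1 hf

lemma exists_fixed : ∃ f ∈ K hq, (∀ g : G, U hq g f = f) := by
  obtain ⟨f, hf, hmin⟩ := exists_norm_eq_iInf_of_complete_convex ⟨_, v_mem_K hq 1⟩
    (K_closed hq).isComplete (K_convex hq) 0
  rw [norm_eq_iInf_iff_real_inner_le_zero (K_convex hq) hf] at hmin
  refine ⟨f, hf, fun g => ?_⟩
  have h1 := hmin _ (U_maps_K hq g f hf)
  rw [zero_sub, inner_neg_left, inner_sub_right, real_inner_self_eq_norm_sq] at h1
  have h2 : ‖U hq g f‖ = ‖f‖ := (U hq g).norm_map f
  have h3 : ‖U hq g f - f‖ ^ 2 ≤ 0 := by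
    rw [norm_sub_sq_real, h2, real_inner_comm]
    linarith
  have h4 : ‖U hq g f - f‖ = 0 := by
    have := sq_nonneg ‖U hq g f - f‖
    exact pow_eq_zero_iff (two_ne_zero) |>.mp (le_antisymm h3 this)
  exact sub_eq_zero.mp (norm_eq_zero.mp h4)

lemma exists_small (h0 : (0 : Lp ℝ 2 m) ∈ K hq) (w : Lp ℝ 2 m) (δ : ℝ) (hδ : 0 < δ) :
    ∃ g : G, ⟪v hq g, w⟫ < δ := by
  by_contra hcon
  push Not at hcon
  have hsub : K hq ⊆ {x | δ ≤ ⟪x, w⟫} := by
    unfold K
    apply closure_minimal
    · apply convexHull_min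
      · rintro _ ⟨g, rfl⟩
        exact hcon g
      · intro x hx y hy a b ha hb hab
        simp only [Set.mem_ofPred_eq] at hx hy ⊢
        rw [inner_add_left, real_inner_smul_left, real_inner_smul_left]
        nlinarith
    · exact isClosed_le continuous_const (by fun_prop)
  have := hsub h0
  simp only [Set.mem_ofPred_eq, inner_zero_left] at this
  linarith

lemma inner_v (g h : G) : ⟪v hq g, v hq h⟫ = ∫ x, sq m g x * sq m h x ∂m := by
  rw [L2.inner_def]
  apply integral_congr_ae
  filter_upwards [coeFn_v hq g, coeFn_v hq h] with x x1 x2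
  rw [x1, x2]
  simp [mul_comm]

lemma inner_v_nonneg (g h : G) : 0 ≤ ⟪v hq g, v hq h⟫ := by
  rw [inner_v]
  apply integral_nonneg
  intro x
  exact mul_nonneg (Real.sqrt_nonneg _) (Real.sqrt_nonneg _)

/-- Small inner product: the two translated measures are almost singular. -/
lemma exists_split (g h : G) (ε : ℝ≥0∞) (hε : ENNReal.ofReal ⟪v hq g, v hq h⟫ ≤ ε) :
    ∃ D : Set X, m (h⁻¹ • D) ≤ ε ∧ m (g⁻¹ • Dᶜ) ≤ ε := by
  have hint : Integrable (fun x => sq m g x * sq m h x) m := by
    have h1 : MemLp (sq m g) 2 m := (Lp.memLp (v hq g)).ae_eq (coeFn_v hq g)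
    have h2 : MemLp (sq m h) 2 m := (Lp.memLp (v hq h)).ae_eq (coeFn_v hq h)
    exact h1.integrable_mul h2
  rw [inner_v, ofReal_integral_eq_lintegral_ofReal hint
    (Eventually.of_forall fun x => mul_nonneg (Real.sqrt_nonneg _) (Real.sqrt_nonneg _))] at hε
  refine ⟨{x | dens m h x ≤ dens m g x}, ?_, ?_⟩
  · rw [← setLIntegral_dens hq]
    refine le_trans ?_ hε
    refine le_trans ?_ (setLIntegral_le_lintegral {x | dens m h x ≤ dens m g x} _)
    apply setLIntegral_mono_ae' MeasurableSet.of_discrete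
    filter_upwards [dens_lt_top hq g, dens_lt_top hq h] with x x1 x2 x3
    unfold sq
    rw [ENNReal.le_ofReal_iff_toReal_le x2.ne (mul_nonneg (Real.sqrt_nonneg _) (Real.sqrt_nonneg _))]
    have h4 : (dens m h x).toReal ≤ (dens m g x).toReal := ENNReal.toReal_mono x1.ne x3
    calc (dens m h x).toReal = √(dens m h x).toReal * √(dens m h x).toReal :=
          (Real.mul_self_sqrt ENNReal.toReal_nonneg).symm
      _ ≤ √(dens m g x).toReal * √(dens m h x).toReal :=
          mul_le_mul_of_nonneg_right (Real.sqrt_le_sqrt h4) (Real.sqrt_nonneg _)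
  · rw [← setLIntegral_dens hq]
    refine le_trans ?_ hε
    refine le_trans ?_ (setLIntegral_le_lintegral {x | dens m h x ≤ dens m g x}ᶜ _)
    apply setLIntegral_mono_ae' MeasurableSet.of_discrete
    filter_upwards [dens_lt_top hq g, dens_lt_top hq h] with x x1 x2 x3
    simp only [Set.mem_compl_iff, Set.mem_ofPred_eq, not_le] at x3
    unfold sq
    rw [ENNReal.le_ofReal_iff_toReal_le x1.ne (mul_nonneg (Real.sqrt_nonneg _) (Real.sqrt_nonneg _))]
    have h4 : (dens m g x).toReal ≤ (dens m h x).toReal := ENNReal.toReal_mono x2.ne x3.le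
    calc (dens m g x).toReal = √(dens m g x).toReal * √(dens m g x).toReal :=
          (Real.mul_self_sqrt ENNReal.toReal_nonneg).symm
      _ ≤ √(dens m g x).toReal * √(dens m h x).toReal :=
          mul_le_mul_of_nonneg_left (Real.sqrt_le_sqrt h4) (Real.sqrt_nonneg _)

lemma exists_small_finset (h0 : (0 : Lp ℝ 2 m) ∈ K hq) (F : Finset G) (δ : ℝ) (hδ : 0 < δ) :
    ∃ g : G, ∀ h ∈ F, ⟪v hq g, v hq h⟫ < δ := by
  obtain ⟨g, hg⟩ := exists_small hq h0 (∑ h ∈ F, v hq h) δ hδ
  refine ⟨g, fun h hh => ?_⟩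
  rw [inner_sum] at hg
  exact lt_of_le_of_lt (Finset.single_le_sum (f := fun h => ⟪v hq g, v hq h⟫)
    (fun i _ => inner_v_nonneg hq g i) hh) hg

lemma exists_wandering (hm : m univ = 1) (h0 : (0 : Lp ℝ 2 m) ∈ K hq) :
    ∃ (W : Set X) (g : ℕ → G), 0 < m W ∧
      Pairwise (Function.onFun Disjoint (fun n => g n • W)) := by
  classical
  let δ : ℕ → ℝ := fun n => (1 / 2) ^ n * (1 / 2) ^ n * (1 / 8)
  have hδ : ∀ n, 0 < δ n := fun n => by positivity
  have step : ∀ (n : ℕ) (F : Finset G), ∃ g : G, ∀ h ∈ F, ⟪v hq g, v hq h⟫ < δ n :=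
    fun n F => exists_small_finset hq h0 F (δ n) (hδ n)
  choose G' hG' using step
  let F : ℕ → Finset G := fun n => Nat.rec (∅ : Finset G) (fun k C => insert (G' k C) C) n
  have hFs : ∀ n, F (n + 1) = insert (G' n (F n)) (F n) := fun n => rfl
  have hFmono : Monotone F :=
    monotone_nat_of_le_succ (fun n => by rw [hFs]; exact Finset.subset_insert _ _)
  let g : ℕ → G := fun n => G' n (F n)
  have hgF : ∀ n m, n < m → g n ∈ F m := by
    intro n m hnm
    have : F (n + 1) ⊆ F m := hFmono hnm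
    apply this
    rw [hFs]; exact Finset.mem_insert_self _ _
  have hg : ∀ i n, i < n → ⟪v hq (g n), v hq (g i)⟫ < δ n := fun i n hin => hG' n (F n) _ (hgF i n hin)
  -- splitting sets
  have hsplit : ∀ i n, ∃ D : Set X, i < n → m ((g i)⁻¹ • D) ≤ ENNReal.ofReal (δ n) ∧
      m ((g n)⁻¹ • Dᶜ) ≤ ENNReal.ofReal (δ n) := by
    intro i n
    by_cases hin : i < n
    · obtain ⟨D, h1, h2⟩ := exists_split hq (g n) (g i) (ENNReal.ofReal (δ n))
        (ENNReal.ofReal_le_ofReal (hg i n hin).le)
      exact ⟨D, fun _ => ⟨h1, h2⟩⟩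
    · exact ⟨∅, fun h => absurd h hin⟩
  choose D hD using hsplit
  let Bad : Set X := ⋃ n, ⋃ i ∈ Finset.range n, ((g i)⁻¹ • D i n ∪ (g n)⁻¹ • (D i n)ᶜ)
  have hBad : m Bad ≤ ENNReal.ofReal (1 / 2) := by
    calc m Bad ≤ ∑' n, m (⋃ i ∈ Finset.range n, ((g i)⁻¹ • D i n ∪ (g n)⁻¹ • (D i n)ᶜ)) :=
          measure_iUnion_le _
      _ ≤ ∑' n, ENNReal.ofReal ((1 / 4) * (1 / 2) ^ n) := by
          apply ENNReal.tsum_le_tsum
          intro n
          calc m (⋃ i ∈ Finset.range n, ((g i)⁻¹ • D i n ∪ (g n)⁻¹ • (D i n)ᶜ))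
              ≤ ∑ i ∈ Finset.range n, m ((g i)⁻¹ • D i n ∪ (g n)⁻¹ • (D i n)ᶜ) :=
                measure_biUnion_finset_le _ _
            _ ≤ ∑ i ∈ Finset.range n, ENNReal.ofReal (2 * δ n) := by
                apply Finset.sum_le_sum
                intro i hi
                obtain ⟨h1, h2⟩ := hD i n (Finset.mem_range.mp hi)
                calc m ((g i)⁻¹ • D i n ∪ (g n)⁻¹ • (D i n)ᶜ)
                    ≤ m ((g i)⁻¹ • D i n) + m ((g n)⁻¹ • (D i n)ᶜ) := measure_union_le _ _
                  _ ≤ ENNReal.ofReal (δ n) + ENNReal.ofReal (δ n) := add_le_add h1 h2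
                  _ = ENNReal.ofReal (2 * δ n) := by
                      rw [← ENNReal.ofReal_add (hδ n).le (hδ n).le]; congr 1; ring
            _ = ENNReal.ofReal (n * (2 * δ n)) := by
                rw [Finset.sum_const, Finset.card_range, nsmul_eq_mul,
                  ENNReal.ofReal_mul (Nat.cast_nonneg n), ENNReal.ofReal_natCast]
            _ ≤ ENNReal.ofReal ((1 / 4) * (1 / 2) ^ n) := by
                apply ENNReal.ofReal_le_ofReal
                have h1 : (n : ℝ) ≤ 2 ^ n := by exact_mod_cast (Nat.lt_two_pow_self).le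
                have h2 : (2 : ℝ) ^ n * (1 / 2) ^ n = 1 := by
                  rw [← mul_pow]; norm_num
                have h3 : (0 : ℝ) < (1 / 2) ^ n := by positivity
                calc (n : ℝ) * (2 * ((1 / 2) ^ n * (1 / 2) ^ n * (1 / 8)))
                    ≤ 2 ^ n * (2 * ((1 / 2) ^ n * (1 / 2) ^ n * (1 / 8))) :=
                      mul_le_mul_of_nonneg_right h1 (by positivity)
                  _ = (1 / 4) * (2 ^ n * (1 / 2) ^ n) * (1 / 2) ^ n := by ring
                  _ = (1 / 4) * (1 / 2) ^ n := by rw [h2]; ring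
      _ = ENNReal.ofReal (∑' n : ℕ, (1 / 4) * (1 / 2) ^ n) := by
          rw [ENNReal.ofReal_tsum_of_nonneg (fun n => by positivity)]
          exact (summable_geometric_two).mul_left _
      _ = ENNReal.ofReal (1 / 2) := by
          rw [tsum_mul_left, tsum_geometric_two]; norm_num
  refine ⟨Badᶜ, g, ?_, ?_⟩
  · have h1 : m Badᶜ = m univ - m Bad :=
      measure_compl MeasurableSet.of_discrete (measure_ne_top _ _)
    rw [h1, hm]
    apply tsub_pos_of_lt
    refine lt_of_le_of_lt hBad ?_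
    rw [← ENNReal.ofReal_one]
    exact (ENNReal.ofReal_lt_ofReal_iff one_pos).mpr (by norm_num)
  · have key : ∀ i n, i < n → Disjoint (g i • Badᶜ) (g n • Badᶜ) := by
      intro i n hin
      rw [Set.disjoint_left]
      intro y h1 h2
      rw [Set.mem_smul_set_iff_inv_smul_mem] at h1 h2
      by_cases hy : y ∈ D i n
      · apply h1
        simp only [Bad, Set.mem_iUnion, Finset.mem_range, exists_prop]
        exact ⟨n, i, hin, Or.inl (Set.smul_mem_smul_set hy)⟩
      · apply h2
        simp only [Bad, Set.mem_iUnion, Finset.mem_range, exists_prop]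
        exact ⟨n, i, hin, Or.inr (Set.smul_mem_smul_set hy)⟩
    intro i n hin
    rcases lt_or_gt_of_ne hin with h | h
    · exact key i n h
    · exact (key n i h).symm

/-- A quasi-invariant probability measure without weakly wandering sets of positive measure
gives an invariant one. -/
lemma exists_invariant (hm : m univ = 1)
    (hW : ∀ (W : Set X) (g : ℕ → G), Pairwise (Function.onFun Disjoint (fun n => g n • W)) →
      m W = 0) :
    ∃ ν : Measure X, ν univ = 1 ∧ ∀ (g : G) (A : Set X), ν (g • A) = ν A := by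
  obtain ⟨f, hf, hinv⟩ := exists_fixed hq
  have hf0 : f ≠ 0 := by
    rintro rfl
    obtain ⟨W, g, h1, h2⟩ := exists_wandering hq hm hf
    exact absurd (hW W g h2) h1.ne'
  let ν₀ : Measure X := m.withDensity (fun x => ‖f x‖ₑ ^ 2)
  have hν₀ : ∀ A, ν₀ A = ∫⁻ x in A, ‖f x‖ₑ ^ 2 ∂m := fun A =>
    withDensity_apply _ MeasurableSet.of_discrete
  have hinv0 : ∀ (g : G) (A : Set X), ν₀ (g • A) = ν₀ A := by
    intro g A
    rw [hν₀, hν₀, ← lintegral_uf hq g f A]
    apply lintegral_congr_ae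
    apply ae_restrict_of_ae
    have h1 := coeFn_U hq g f
    rw [hinv g] at h1
    filter_upwards [h1] with x hx
    rw [hx]
  have hnorm : (eLpNorm f 2 m) ^ 2 = ν₀ univ := by
    rw [hν₀, setLIntegral_univ, eLpNorm_eq_lintegral_rpow_enorm_toReal (by norm_num) (by norm_num)]
    simp only [ENNReal.toReal_ofNat, ENNReal.rpow_ofNat, one_div]
    rw [← ENNReal.rpow_natCast, ← ENNReal.rpow_mul]
    norm_num
  have hne0 : ν₀ univ ≠ 0 := by
    rw [← hnorm]
    intro h
    have h2 : eLpNorm f 2 m = 0 := by simpa using h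
    apply hf0
    rw [← norm_eq_zero, Lp.norm_def, h2]
    simp
  have hnetop : ν₀ univ ≠ ⊤ := by
    rw [← hnorm]
    exact ENNReal.pow_ne_top (Lp.eLpNorm_ne_top f)
  refine ⟨(ν₀ univ)⁻¹ • ν₀, ?_, fun g A => ?_⟩
  · rw [Measure.smul_apply, smul_eq_mul]
    exact ENNReal.inv_mul_cancel hne0 hnetop
  · rw [Measure.smul_apply, Measure.smul_apply, hinv0]

end

end Pool.Agent.H806R2.Chuaqui
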