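import Mathlib

set_option autoImplicit false

namespace Pool.Agent.H806R2.UM

open Filter Topology Set Metric

/-! ### One-dimensional lemmas -/

/-- A continuous function with connected fibres on an interval is above the minimum of the two
end values. -/
lemma between {ψ : ℝ → ℝ} {I : Set ℝ} (hI : OrdConnected I) (hc : ContinuousOn ψ I)
    (hf : ∀ s₁ ∈ I, ∀ s₂ ∈ I, ∀ s, s₁ ≤ s → s ≤ s₂ → ψ s₁ = ψ s₂ → ψ s = ψ s₁)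
    {s₁ s₂ s : ℝ} (h₁ : s₁ ∈ I) (h₂ : s₂ ∈ I) (hs₁ : s₁ ≤ s) (hs₂ : s ≤ s₂) :
    min (ψ s₁) (ψ s₂) ≤ ψ s := by
  by_contra hcon
  push Not at hcon
  obtain ⟨z, hz1, hz2⟩ := exists_between hcon
  have hz3 : z < ψ s₁ := hz2.trans_le (min_le_left _ _)
  have hz4 : z < ψ s₂ := hz2.trans_le (min_le_right _ _)
  have hs : s ∈ I := hI.out h₁ h₂ ⟨hs₁, hs₂⟩
  have hc1 : ContinuousOn ψ (Icc s₁ s) := hc.mono (hI.out h₁ hs)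
  have hc2 : ContinuousOn ψ (Icc s s₂) := hc.mono (hI.out hs h₂)
  obtain ⟨a, ha, ha'⟩ := intermediate_value_Icc' hs₁ hc1 ⟨hz1.le, hz3.le⟩
  obtain ⟨b, hb, hb'⟩ := intermediate_value_Icc hs₂ hc2 ⟨hz1.le, hz4.le⟩
  have := hf a (hI.out h₁ hs ha) b (hI.out hs h₂ hb) s ha.2 hb.1 (ha'.trans hb'.symm)
  rw [this, ha'] at hz1
  exact lt_irrefl _ hz1

/-- A continuous function on `(0,β)` tending to `+∞` at `0+` attains all larger values. -/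
lemma attain {ψ : ℝ → ℝ} {β : ℝ} (hc : ContinuousOn ψ (Ioo 0 β))
    (hlim : Tendsto ψ (𝓝[>] 0) atTop) {t Z : ℝ} (ht : t ∈ Ioo 0 β) (hZ : ψ t < Z) :
    ∃ t' ∈ Ioo 0 t, ψ t' = Z := by
  have h1 : ∀ᶠ s in 𝓝[>] (0:ℝ), Z ≤ ψ s := hlim.eventually_ge_atTop Z
  have h2 : ∀ᶠ s in 𝓝[>] (0:ℝ), s ∈ Ioo 0 t := Ioo_mem_nhdsGT ht.1
  obtain ⟨s, hs1, hs2⟩ := (h1.and h2).exists
  have hcs : ContinuousOn ψ (Icc s t) := hc.mono (fun x hx => ⟨hs2.1.trans_le hx.1, hx.2.trans_lt ht.2⟩)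
  obtain ⟨x, hx, hx'⟩ := intermediate_value_Icc' hs2.2.le hcs ⟨hZ.le, hs1⟩
  refine ⟨x, ⟨hs2.1.trans_le hx.1, lt_of_le_of_ne hx.2 ?_⟩, hx'⟩
  rintro rfl
  rw [hx'] at hZ
  exact lt_irrefl _ hZ

/-- In a gap of the bad set, a large value forces unboundedness. -/
lemma gap_unbounded {ψ : ℝ → ℝ} {α β t : ℝ} {n : ℝ} (ht : t ∈ Ioo α β)
    (hc : ContinuousOn ψ (Ioo α β))
    (hf : ∀ s₁ ∈ Ioo α β, ∀ s₂ ∈ Ioo α β, ∀ s, s₁ ≤ s → s ≤ s₂ → ψ s₁ = ψ s₂ → ψ s = ψ s₁)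
    (hα : ∀ (s : ℕ → ℝ) (x : ℝ), Tendsto s atTop (𝓝 α) → Tendsto (fun k => ψ (s k)) atTop (𝓝 x) →
      ψ α = x)
    (hβ : ∀ (s : ℕ → ℝ) (x : ℝ), Tendsto s atTop (𝓝 β) → Tendsto (fun k => ψ (s k)) atTop (𝓝 x) →
      ψ β = x)
    (hαn : ψ α ≤ n) (hβn : ψ β ≤ n) (htn : n < ψ t) :
    ∀ Z, ψ t < Z → ∃ s ∈ Ioo α β, ψ s = Z := by
  intro Z hZ
  by_contra hcon
  push Not at hcon
  have hbd : ∀ s ∈ Ioo α β, ψ s ≤ Z := by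
    intro s hs
    by_contra hlt
    push Not at hlt
    rcases le_total s t with h | h
    · have hcs : ContinuousOn ψ (Icc s t) :=
        hc.mono (fun x hx => ⟨hs.1.trans_le hx.1, hx.2.trans_lt ht.2⟩)
      obtain ⟨x, hx, hx'⟩ := intermediate_value_Icc' h hcs ⟨hZ.le, hlt.le⟩
      exact hcon x ⟨hs.1.trans_le hx.1, hx.2.trans_lt ht.2⟩ hx'
    · have hcs : ContinuousOn ψ (Icc t s) :=
        hc.mono (fun x hx => ⟨ht.1.trans_le hx.1, hx.2.trans_lt hs.2⟩)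
      obtain ⟨x, hx, hx'⟩ := intermediate_value_Icc h hcs ⟨hZ.le, hlt.le⟩
      exact hcon x ⟨ht.1.trans_le hx.1, hx.2.trans_lt hs.2⟩ hx'
  obtain ⟨z, hz1, hz2⟩ := exists_between htn
  -- a point to the left of `t` with value below `z`
  have hleft : ∃ s ∈ Ioo α t, ψ s < z := by
    by_contra hno
    push Not at hno
    obtain ⟨s, hs1, hs2, hs3⟩ := exists_seq_strictAnti_tendsto' ht.1
    have hK : ∀ k, ψ (s k) ∈ Icc z Z := fun k =>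
      ⟨hno _ (hs2 k), hbd _ ⟨(hs2 k).1, (hs2 k).2.trans ht.2⟩⟩
    obtain ⟨x, hx, g, hg1, hg2⟩ := isCompact_Icc.tendsto_subseq hK
    have := hα (s ∘ g) x (hs3.comp hg1.tendsto_atTop) hg2
    rw [this] at hαn
    linarith [hx.1]
  have hright : ∃ s ∈ Ioo t β, ψ s < z := by
    by_contra hno
    push Not at hno
    obtain ⟨s, hs1, hs2, hs3⟩ := exists_seq_strictMono_tendsto' ht.2
    have hK : ∀ k, ψ (s k) ∈ Icc z Z := fun k =>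
      ⟨hno _ (hs2 k), hbd _ ⟨ht.1.trans (hs2 k).1, (hs2 k).2⟩⟩
    obtain ⟨x, hx, g, hg1, hg2⟩ := isCompact_Icc.tendsto_subseq hK
    have := hβ (s ∘ g) x (hs3.comp hg1.tendsto_atTop) hg2
    rw [this] at hβn
    linarith [hx.1]
  obtain ⟨a, ha, ha'⟩ := hleft
  obtain ⟨b, hb, hb'⟩ := hright
  have hneg : min ((fun s => -ψ s) a) ((fun s => -ψ s) b) ≤ (fun s => -ψ s) t :=
    between (ψ := fun s => -ψ s) (I := Ioo α β) ordConnected_Ioo hc.neg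
      (fun s₁ h₁ s₂ h₂ s hs₁ hs₂ h => by
        have := hf s₁ h₁ s₂ h₂ s hs₁ hs₂ (neg_injective h)
        simp [this])
      ⟨ha.1, ha.2.trans ht.2⟩ ⟨ht.1.trans hb.1, hb.2⟩ ha.2.le hb.1.le
  simp only at hneg
  rcases min_le_iff.mp hneg with h | h <;> linarith

/-- The one-dimensional gap lemma. -/
lemma gap_lemma {ψ : ℝ → ℝ} {τ n : ℝ} {K : Set ℝ} (hτ : 0 < τ) (hK : IsClosed K)
    (hc : ∀ t ∈ Ioo 0 τ, t ∉ K → ContinuousAt ψ t)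
    (hn : ∀ t ∈ Ioo 0 τ, t ∈ K → ψ t ≤ n)
    (hcl : ∀ t ∈ Ioo 0 τ, ∀ (s : ℕ → ℝ) (x : ℝ), Tendsto s atTop (𝓝 t) →
      Tendsto (fun k => ψ (s k)) atTop (𝓝 x) → ψ t = x)
    (hf : ∀ s₁ ∈ Ioo 0 τ, ∀ s₂ ∈ Ioo 0 τ, ∀ s, s₁ ≤ s → s ≤ s₂ → ψ s₁ = ψ s₂ → ψ s = ψ s₁)
    (hu : ∀ β, 0 < β → ∀ C : ℝ, ∃ t ∈ Ioo 0 β, C < ψ t) :
    ∃ β, 0 < β ∧ β ≤ τ ∧ (∀ t ∈ Ioo 0 β, t ∉ K) ∧ Tendsto ψ (𝓝[>] 0) atTop := by
  -- first: the bad set avoids an interval `(0,β)`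
  have key : ∃ β, 0 < β ∧ β ≤ τ ∧ ∀ t ∈ Ioo 0 β, t ∉ K := by
    by_contra hcon
    push Not at hcon
    -- bad points accumulate at zero
    have hbad : ∀ β, 0 < β → β ≤ τ → ∃ t ∈ Ioo 0 β, t ∈ K := hcon
    obtain ⟨κ₁, hκ₁, hκ₁'⟩ := hbad τ hτ le_rfl
    obtain ⟨t₂, ht₂, ht₂'⟩ := hu κ₁ hκ₁.1 n
    have hκ₁τ := hκ₁.2
    obtain ⟨κ₂, hκ₂, hκ₂'⟩ := hbad t₂ ht₂.1 (ht₂.2.le.trans hκ₁τ.le)
    obtain ⟨t₃, ht₃, ht₃'⟩ := hu κ₂ hκ₂.1 n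
    obtain ⟨κ₃, hκ₃, hκ₃'⟩ := hbad t₃ ht₃.1 ((ht₃.2.trans hκ₂.2).le.trans (ht₂.2.le.trans hκ₁τ.le))
    -- gap around a point between two bad points
    have hgap : ∀ κ κ' t, κ ∈ Ioo 0 τ → κ' ∈ Ioo 0 τ → κ ∈ K → κ' ∈ K → t ∈ Ioo κ κ' → n < ψ t →
        ∀ Z, ψ t < Z → ∃ s ∈ Ioo κ κ', ψ s = Z := by
      intro κ κ' t hκ hκ' hκK hκ'K ht htn Z hZ
      -- left end
      have hA : (K ∩ Icc κ t).Nonempty := ⟨κ, hκK, le_rfl, ht.1.le⟩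
      have hAc : IsCompact (K ∩ Icc κ t) := isCompact_Icc.inter_left hK
      obtain ⟨α, hα⟩ := hAc.exists_isGreatest hA
      have hB : (K ∩ Icc t κ').Nonempty := ⟨κ', hκ'K, ht.2.le, le_rfl⟩
      have hBc : IsCompact (K ∩ Icc t κ') := isCompact_Icc.inter_left hK
      obtain ⟨β, hβ⟩ := hBc.exists_isLeast hB
      obtain ⟨⟨hαK, hα1, hα2⟩, hα3⟩ := hα
      obtain ⟨⟨hβK, hβ1, hβ2⟩, hβ3⟩ := hβ
      have htτ : t ∈ Ioo 0 τ := ⟨hκ.1.trans ht.1, ht.2.trans hκ'.2⟩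
      have htK : t ∉ K := fun h => absurd (hn t htτ h) (not_le.mpr htn)
      have hαt : α < t := lt_of_le_of_ne hα2 (fun h => htK (h ▸ hαK))
      have htβ : t < β := lt_of_le_of_ne hβ1 (fun h => htK (h ▸ hβK))
      have hατ : α ∈ Ioo 0 τ := ⟨hκ.1.trans_le hα1, hαt.trans htτ.2⟩
      have hβτ : β ∈ Ioo 0 τ := ⟨htτ.1.trans htβ, hβ2.trans_lt hκ'.2⟩
      have hno : ∀ s ∈ Ioo α β, s ∉ K := by
        intro s hs hsK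
        rcases le_total s t with h | h
        · exact absurd (hα3 ⟨hsK, hα1.trans hs.1.le, h⟩) (not_le.mpr hs.1)
        · exact absurd (hβ3 ⟨hsK, h, hs.2.le.trans hβ2⟩) (not_le.mpr hs.2)
      have hsub : Ioo α β ⊆ Ioo 0 τ := fun s hs => ⟨hατ.1.trans hs.1, hs.2.trans hβτ.2⟩
      obtain ⟨s, hs, hs'⟩ := gap_unbounded (ψ := ψ) (α := α) (β := β) (t := t) (n := n) ⟨hαt, htβ⟩
        (fun s hs => (hc s (hsub hs) (hno s hs)).continuousWithinAt)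
        (fun s₁ h₁ s₂ h₂ => hf s₁ (hsub h₁) s₂ (hsub h₂))
        (hcl α hατ) (hcl β hβτ) (hn α hατ hαK) (hn β hβτ hβK) htn Z hZ
      exact ⟨s, ⟨hα1.trans_lt hs.1, hs.2.trans_le hβ2⟩, hs'⟩
    have hκ₂τ : κ₂ ∈ Ioo 0 τ := ⟨hκ₂.1, hκ₂.2.trans (ht₂.2.trans hκ₁τ)⟩
    have hκ₃τ : κ₃ ∈ Ioo 0 τ := ⟨hκ₃.1, hκ₃.2.trans (ht₃.2.trans hκ₂τ.2)⟩
    obtain ⟨Z, hZ⟩ := exists_gt (max (ψ t₂) (ψ t₃))
    have hZ2 : ψ t₂ < Z := (le_max_left _ _).trans_lt hZ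
    have hZ3 : ψ t₃ < Z := (le_max_right _ _).trans_lt hZ
    obtain ⟨a, ha, ha'⟩ := hgap κ₂ κ₁ t₂ hκ₂τ hκ₁ hκ₂' hκ₁' ⟨hκ₂.2, ht₂.2⟩ ht₂' Z hZ2
    obtain ⟨b, hb, hb'⟩ := hgap κ₃ κ₂ t₃ hκ₃τ hκ₂τ hκ₃' hκ₂' ⟨hκ₃.2, ht₃.2⟩ ht₃' Z hZ3
    have := hf b ⟨hκ₃τ.1.trans hb.1, hb.2.trans hκ₂τ.2⟩ a ⟨hκ₂τ.1.trans ha.1, ha.2.trans hκ₁.2⟩ κ₂
      hb.2.le ha.1.le (hb'.trans ha'.symm)
    have h2 := hn κ₂ hκ₂τ hκ₂'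
    rw [this, hb'] at h2
    linarith
  obtain ⟨β, hβ, hβτ, hβK⟩ := key
  refine ⟨β, hβ, hβτ, hβK, ?_⟩
  rw [Filter.tendsto_atTop]
  intro C
  obtain ⟨t, ht, htC⟩ := hu β hβ C
  filter_upwards [Ioo_mem_nhdsGT ht.1] with s hs
  obtain ⟨r, hr, hrC⟩ := hu s hs.1 C
  have hcO : ContinuousOn ψ (Ioo 0 β) := fun x hx =>
    (hc x ⟨hx.1, hx.2.trans_le hβτ⟩ (hβK x hx)).continuousWithinAt
  have hsub : Ioo 0 β ⊆ Ioo 0 τ := fun x hx => ⟨hx.1, hx.2.trans_le hβτ⟩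
  have := between (ψ := ψ) (I := Ioo 0 β) ordConnected_Ioo hcO
    (fun s₁ h₁ s₂ h₂ => hf s₁ (hsub h₁) s₂ (hsub h₂))
    (s₁ := r) (s₂ := t) (s := s) ⟨hr.1, hr.2.trans (hs.2.trans ht.2)⟩ ht hr.2.le hs.2.le
  exact (lt_min hrC htC).le.trans this

end Pool.Agent.H806R2.UM
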