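import Pool.Agent.H806R2.UM1

set_option autoImplicit false

namespace Pool.Agent.H806R2.UM

open Filter Topology Set Metric

variable {E : Type} [NormedAddCommGroup E] [NormedSpace ℝ E]

/-- A selection with closed graph and convex conical fibres. -/
structure Sel (φ : E → ℝ) : Prop where
  closed : ∀ v : E, v ≠ 0 → ∀ (u : ℕ → E) (x : ℝ), Tendsto u atTop (𝓝 v) →
    Tendsto (fun k => φ (u k)) atTop (𝓝 x) → φ v = x
  add : ∀ v w : E, v ≠ 0 → w ≠ 0 → φ v = φ w → v + w ≠ 0 ∧ φ (v + w) = φ v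
  smul : ∀ (t : ℝ) (v : E), 0 < t → v ≠ 0 → φ (t • v) = φ v

lemma Sel.neg {φ : E → ℝ} (h : Sel φ) : Sel (fun v => -φ v) where
  closed v hv u x hu hx := by
    have h2 : Tendsto (fun k => φ (u k)) atTop (𝓝 (-x)) := by
      have := hx.neg; simpa using this
    have := h.closed v hv u (-x) hu h2
    rw [this, neg_neg]
  add v w hv hw hvw := by
    obtain ⟨h1, h2⟩ := h.add v w hv hw (neg_injective hvw)
    exact ⟨h1, by rw [h2]⟩
  smul t v ht hv := by rw [h.smul t v ht hv]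

lemma Sel.comb {φ : E → ℝ} (h : Sel φ) {v w : E} (hv : v ≠ 0) (hw : w ≠ 0) (hvw : φ v = φ w)
    {a b : ℝ} (ha : 0 < a) (hb : 0 < b) : a • v + b • w ≠ 0 ∧ φ (a • v + b • w) = φ v := by
  have h1 := h.smul a v ha hv
  have h2 := h.smul b w hb hw
  obtain ⟨h3, h4⟩ := h.add (a • v) (b • w) (smul_ne_zero ha.ne' hv) (smul_ne_zero hb.ne' hw)
    (by rw [h1, h2, hvw])
  exact ⟨h3, h4.trans h1⟩

lemma Sel.comb' {φ : E → ℝ} (h : Sel φ) {v w : E} (hv : v ≠ 0) (hw : w ≠ 0) (hvw : φ v = φ w)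
    {a b : ℝ} (ha : 0 ≤ a) (hb : 0 ≤ b) (hab : 0 < a + b) :
    a • v + b • w ≠ 0 ∧ φ (a • v + b • w) = φ v := by
  rcases ha.eq_or_lt with rfl | ha'
  · have hb' : 0 < b := by linarith
    rw [zero_smul, zero_add, h.smul b w hb' hw]
    exact ⟨smul_ne_zero hb'.ne' hw, hvw.symm⟩
  · rcases hb.eq_or_lt with rfl | hb'
    · rw [zero_smul, add_zero, h.smul a v ha' hv]
      exact ⟨smul_ne_zero ha'.ne' hv, rfl⟩
    · exact h.comb hv hw hvw ha' hb'

/-- Opposite vectors have different values. -/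
lemma Sel.antipodal {φ : E → ℝ} (h : Sel φ) {v : E} (hv : v ≠ 0) : φ v ≠ φ (-v) := by
  intro heq
  exact (h.add v (-v) hv (neg_ne_zero.mpr hv) heq).1 (add_neg_cancel v)

/-- Fibres along a segment are connected. -/
lemma Sel.fibre_line {φ : E → ℝ} (h : Sel φ) {p w : E} {s₁ s₂ s : ℝ} (h1 : p + s₁ • w ≠ 0)
    (h2 : p + s₂ • w ≠ 0) (hs₁ : s₁ ≤ s) (hs₂ : s ≤ s₂) (heq : φ (p + s₁ • w) = φ (p + s₂ • w)) :
    p + s • w ≠ 0 ∧ φ (p + s • w) = φ (p + s₁ • w) := by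
  rcases (hs₁.trans hs₂).eq_or_lt with h12 | h12
  · have : s = s₁ := le_antisymm (hs₂.trans h12.ge) hs₁
    rw [this]; exact ⟨h1, rfl⟩
  · have hpos : 0 < s₂ - s₁ := by linarith
    have key : p + s • w = ((s₂ - s) / (s₂ - s₁)) • (p + s₁ • w) +
        ((s - s₁) / (s₂ - s₁)) • (p + s₂ • w) := by
      have e1 : (s₂ - s) / (s₂ - s₁) + (s - s₁) / (s₂ - s₁) = 1 := by field_simp; ring
      have e2 : (s₂ - s) / (s₂ - s₁) * s₁ + (s - s₁) / (s₂ - s₁) * s₂ = s := by field_simp; ring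
      calc p + s • w = ((s₂ - s) / (s₂ - s₁) + (s - s₁) / (s₂ - s₁)) • p +
            ((s₂ - s) / (s₂ - s₁) * s₁ + (s - s₁) / (s₂ - s₁) * s₂) • w := by
              rw [e1, e2, one_smul]
        _ = _ := by rw [smul_add, smul_add, smul_smul, smul_smul]; module
    rw [key]
    exact h.comb' h1 h2 heq (div_nonneg (by linarith) hpos.le) (div_nonneg (by linarith) hpos.le)
      (by
        have e1 : (s₂ - s) / (s₂ - s₁) + (s - s₁) / (s₂ - s₁) = 1 := by field_simp; ring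
        rw [e1]; exact one_pos)

/-- The points near which `φ` is unbounded above. -/
def Fp (φ : E → ℝ) : Set E := {v | v ≠ 0 ∧ ∀ C : ℝ, v ∈ closure {u | C < φ u}}

/-- The points near which `φ` is unbounded. -/
def FF (φ : E → ℝ) : Set E := Fp φ ∪ Fp (fun v => -φ v)

lemma FF_neg (φ : E → ℝ) : FF (fun v => -φ v) = FF φ := by
  unfold FF
  simp only [neg_neg]
  exact Set.union_comm _ _

lemma seq_of_Fp {φ : E → ℝ} {v : E} (hv : v ∈ Fp φ) : ∃ u : ℕ → E, Tendsto u atTop (𝓝 v) ∧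
    Tendsto (fun k => φ (u k)) atTop atTop ∧ ∀ k, u k ≠ 0 := by
  obtain ⟨hv0, hv⟩ := hv
  have : ∀ k : ℕ, ∃ u : E, (k : ℝ) < φ u ∧ dist u v < min (1 / ((k : ℝ) + 1)) ‖v‖ := by
    intro k
    have hpos : 0 < min (1 / ((k : ℝ) + 1)) ‖v‖ := lt_min (by positivity) (norm_pos_iff.mpr hv0)
    obtain ⟨u, hu, hd⟩ := Metric.mem_closure_iff.mp (hv k) _ hpos
    exact ⟨u, hu, by rwa [dist_comm]⟩
  choose u hu1 hu2 using this
  refine ⟨u, ?_, ?_, ?_⟩
  · rw [tendsto_iff_dist_tendsto_zero]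
    exact squeeze_zero (fun k => dist_nonneg) (fun k => ((hu2 k).le.trans (min_le_left _ _)))
      tendsto_one_div_add_atTop_nhds_zero_nat
  · exact tendsto_atTop_mono (fun k => (hu1 k).le) tendsto_natCast_atTop_atTop
  · intro k hk
    have h1 := (hu2 k).trans_le (min_le_right _ _)
    rw [hk, dist_zero_left] at h1
    exact lt_irrefl _ h1

lemma Fp_of_seq {φ : E → ℝ} {v : E} (hv : v ≠ 0) {u : ℕ → E} (hu : Tendsto u atTop (𝓝 v))
    (hφ : Tendsto (fun k => φ (u k)) atTop atTop) : v ∈ Fp φ := by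
  refine ⟨hv, fun C => ?_⟩
  exact mem_closure_of_tendsto hu (hφ.eventually_gt_atTop C)

/-- `φ` is continuous off the bad set. -/
lemma Sel.cont {φ : E → ℝ} (h : Sel φ) {v : E} (hv : v ≠ 0) (hF : v ∉ FF φ) :
    ContinuousAt φ v := by
  simp only [FF, Fp, Set.mem_union, Set.mem_ofPred_eq, not_or, not_and, not_forall] at hF
  obtain ⟨C, hC⟩ := hF.1 hv
  obtain ⟨C', hC'⟩ := hF.2 hv
  rw [mem_closure_iff_frequently, not_frequently] at hC hC'
  have hb : ∀ᶠ u in 𝓝 v, φ u ∈ Icc (-C') C := by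
    filter_upwards [hC, hC'] with u h1 h2
    simp only [Set.mem_ofPred_eq, not_lt] at h1 h2
    exact ⟨by linarith, h1⟩
  unfold ContinuousAt
  rw [tendsto_nhds_iff_seq_tendsto]
  intro u hu
  apply tendsto_of_subseq_tendsto
  intro ns hns
  have hu' : Tendsto (fun k => u (ns k)) atTop (𝓝 v) := hu.comp hns
  obtain ⟨x, _, g, hg1, hg2⟩ := isCompact_Icc.tendsto_subseq' (hu'.eventually hb).frequently
  have h3 := h.closed v hv (fun k => u (ns (g k))) x (hu'.comp hg1.tendsto_atTop) hg2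
  refine ⟨g, ?_⟩
  rw [h3]
  exact hg2

/-- Closedness of the level bands. -/
lemma Sel.band {φ : E → ℝ} (h : Sel φ) {v : E} (hv : v ≠ 0) {a b : ℝ}
    (hcl : v ∈ closure {u | a ≤ φ u ∧ φ u ≤ b}) : a ≤ φ v ∧ φ v ≤ b := by
  obtain ⟨u, hu1, hu2⟩ := mem_closure_iff_seq_limit.mp hcl
  obtain ⟨x, hx, g, hg1, hg2⟩ := isCompact_Icc.tendsto_subseq (x := fun k => φ (u k)) (s := Icc a b)
    (fun k => hu1 k)
  have := h.closed v hv (u ∘ g) x (hu2.comp hg1.tendsto_atTop) hg2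
  rw [this]
  exact hx

lemma Sel.level {φ : E → ℝ} (h : Sel φ) {v : E} (hv : v ≠ 0) {y : ℝ}
    (hcl : v ∈ closure {u | φ u = y}) : φ v = y := by
  have hsub : {u | φ u = y} ⊆ {u | y ≤ φ u ∧ φ u ≤ y} := fun u (hu : φ u = y) => ⟨hu.ge, hu.le⟩
  have := h.band hv (a := y) (b := y) (closure_mono hsub hcl)
  exact le_antisymm this.2 this.1

lemma isOpen_compl_FF (φ : E → ℝ) : IsOpen {v | v ≠ 0 ∧ v ∉ FF φ} := by
  have : {v | v ≠ 0 ∧ v ∉ FF φ} = ({0} ∪ (⋂ C : ℝ, closure {u | C < φ u}) ∪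
      (⋂ C : ℝ, closure {u | C < -φ u}))ᶜ := by
    ext v
    simp only [FF, Fp, Set.mem_union, Set.mem_ofPred_eq, not_or, not_and, not_forall,
      Set.mem_compl_iff, Set.mem_singleton_iff, Set.mem_iInter]
    constructor
    · rintro ⟨h0, h1, h2⟩
      exact ⟨⟨h0, h1 h0⟩, h2 h0⟩
    · rintro ⟨⟨h0, h1⟩, h2⟩
      exact ⟨h0, fun _ => h1, fun _ => h2⟩
  rw [this, isOpen_compl_iff]
  exact (isClosed_singleton.union (isClosed_iInter fun C => isClosed_closure)).union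
    (isClosed_iInter fun C => isClosed_closure)

lemma FF_ne_zero {φ : E → ℝ} {v : E} (hv : v ∈ FF φ) : v ≠ 0 := by
  rcases hv with h | h <;> exact h.1

/-- The bad set is closed off the origin. -/
lemma FF_of_closure {φ : E → ℝ} {v : E} (hv : v ≠ 0) (h : v ∈ closure (FF φ)) : v ∈ FF φ := by
  by_contra hF
  obtain ⟨u, hu1, hu2⟩ := mem_closure_iff.mp h _ (isOpen_compl_FF φ) ⟨hv, hF⟩
  exact hu1.2 hu2

/-- Baire category on the bad set. -/
lemma Sel.baire [CompleteSpace E] {φ : E → ℝ} (h : Sel φ) {Ω : Set E} (hΩ : IsOpen Ω)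
    (hne : (FF φ ∩ Ω).Nonempty) :
    ∃ v ∈ FF φ, ∃ ε > 0, ∃ n : ℕ, ball v ε ⊆ Ω ∧ (0 : E) ∉ ball v ε ∧
      ∀ u ∈ ball v ε, u ∈ FF φ → |φ u| ≤ n := by
  obtain ⟨p, hp, hpΩ⟩ := hne
  have hp0 := FF_ne_zero hp
  have hΩ' : IsOpen (Ω ∩ {0}ᶜ) := hΩ.inter isOpen_compl_singleton
  obtain ⟨r, hr, hrΩ⟩ := Metric.isOpen_iff.mp hΩ' p ⟨hpΩ, hp0⟩
  have hcb : closedBall p (r / 2) ⊆ Ω ∩ {0}ᶜ := (closedBall_subset_ball (by linarith)).trans hrΩ
  set K : Set E := closure (FF φ ∩ ball p (r / 2)) with hK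
  have hKc : IsClosed K := isClosed_closure
  have hKsub : K ⊆ closedBall p (r / 2) :=
    closure_minimal (inter_subset_right.trans ball_subset_closedBall) isClosed_closedBall
  have hKF : K ⊆ FF φ := by
    intro v hv
    exact FF_of_closure (hcb (hKsub hv)).2 (closure_mono inter_subset_left hv)
  have hpK : p ∈ K := subset_closure ⟨hp, mem_ball_self (by linarith)⟩
  haveI : Nonempty K := ⟨⟨p, hpK⟩⟩
  haveI : CompleteSpace K := hKc.completeSpace_coe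
  let S : ℕ → Set K := fun n => {x | |φ (x : E)| ≤ n}
  have hS : ∀ n, IsClosed (S n) := by
    intro n
    rw [isClosed_iff_clusterPt]
    intro x hx
    have hx2 : x ∈ closure (S n) := mem_closure_iff_clusterPt.mpr hx
    have hx3 : (x : E) ∈ closure {u | -(n:ℝ) ≤ φ u ∧ φ u ≤ n} := by
      have h1 := image_closure_subset_closure_image (continuous_subtype_val (p := fun y => y ∈ K))
        (mem_image_of_mem _ hx2)
      refine closure_mono ?_ h1
      rintro _ ⟨y, hy, rfl⟩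
      exact abs_le.mp hy
    exact abs_le.mpr (h.band (FF_ne_zero (hKF x.2)) hx3)
  have hU : (⋃ n, S n) = univ := by
    rw [eq_univ_iff_forall]
    intro x
    obtain ⟨n, hn⟩ := exists_nat_ge |φ (x : E)|
    exact mem_iUnion.mpr ⟨n, hn⟩
  obtain ⟨n, x, hx⟩ := nonempty_interior_of_iUnion_of_closed hS hU
  rw [mem_interior] at hx
  obtain ⟨V, hVS, hVo, hxV⟩ := hx
  obtain ⟨W, hWo, rfl⟩ := isOpen_induced_iff.mp hVo
  have hxW : (x : E) ∈ W := hxV
  obtain ⟨q, hqW, hqF, hqb⟩ := mem_closure_iff.mp x.2 W hWo hxW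
  obtain ⟨ε, hε, hεs⟩ := Metric.isOpen_iff.mp (hWo.inter isOpen_ball) q ⟨hqW, hqb⟩
  refine ⟨q, hqF, ε, hε, n, ?_, ?_, ?_⟩
  · intro u hu
    exact (hcb (ball_subset_closedBall (hεs hu).2)).1
  · intro h0
    exact (hcb (ball_subset_closedBall (hεs h0).2)).2 rfl
  · intro u hu huF
    have huK : u ∈ K := subset_closure ⟨huF, (hεs hu).2⟩
    exact hVS (show (⟨u, huK⟩ : K) ∈ _ from (hεs hu).1)

end Pool.Agent.H806R2.UM
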