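import Pool.Agent.H806R2.UM2

set_option autoImplicit false

namespace Pool.Agent.H806R2.UM

open Filter Topology Set Metric

variable {E : Type} [NormedAddCommGroup E] [NormedSpace ℝ E]

lemma Sel.convex_gt {φ : E → ℝ} (h : Sel φ) {S : Set E} (hS : Convex ℝ S) (h0 : (0 : E) ∉ S)
    (hc : ContinuousOn φ S) (c : ℝ) : Convex ℝ {u | u ∈ S ∧ c < φ u} := by
  rintro x ⟨hx, hxc⟩ y ⟨hy, hyc⟩ a b ha hb hab
  have hm : a • x + b • y = x + b • (y - x) := by
    have : a = 1 - b := by linarith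
    rw [this]; module
  have hline : ∀ s ∈ Icc (0:ℝ) 1, x + s • (y - x) ∈ S := by
    intro s hs
    have := hS hx hy (a := 1 - s) (b := s) (by linarith [hs.2]) hs.1 (by ring)
    convert this using 1
    module
  refine ⟨hS hx hy ha hb hab, ?_⟩
  have hcc : ContinuousOn (fun s : ℝ => φ (x + s • (y - x))) (Icc 0 1) := by
    refine hc.comp (Continuous.continuousOn (by fun_prop)) hline
  have hne : ∀ s ∈ Icc (0:ℝ) 1, x + s • (y - x) ≠ 0 := fun s hs h' => h0 (h' ▸ hline s hs)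
  have := between (ψ := fun s : ℝ => φ (x + s • (y - x))) (I := Icc 0 1) ordConnected_Icc hcc
    (fun s₁ h₁ s₂ h₂ s hs₁ hs₂ heq => (h.fibre_line (hne s₁ h₁) (hne s₂ h₂) hs₁ hs₂ heq).2)
    (s₁ := 0) (s₂ := 1) (s := b) ⟨le_rfl, zero_le_one⟩ ⟨zero_le_one, le_rfl⟩ hb (by linarith)
  rw [hm]
  simp only [zero_smul, add_zero, one_smul, add_sub_cancel] at this
  exact (lt_min hxc hyc).trans_le this

lemma Sel.convex_lt {φ : E → ℝ} (h : Sel φ) {S : Set E} (hS : Convex ℝ S) (h0 : (0 : E) ∉ S)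
    (hc : ContinuousOn φ S) (c : ℝ) : Convex ℝ {u | u ∈ S ∧ φ u < c} := by
  have := h.neg.convex_gt hS h0 hc.neg (-c)
  simpa using this

lemma Sel.convex_eq {φ : E → ℝ} (h : Sel φ) {S : Set E} (hS : Convex ℝ S) (h0 : (0 : E) ∉ S)
    (c : ℝ) : Convex ℝ {u | u ∈ S ∧ φ u = c} := by
  rintro x ⟨hx, hxc⟩ y ⟨hy, hyc⟩ a b ha hb hab
  refine ⟨hS hx hy ha hb hab, ?_⟩
  rw [(h.comb' (fun h' => h0 (h' ▸ hx)) (fun h' => h0 (h' ▸ hy)) (hxc.trans hyc.symm) ha hb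
    (by rw [hab]; exact one_pos)).2, hxc]

/-- One-sided case of the local structure. -/
lemma Sel.local_plane_aux {φ : E → ℝ} (h : Sel φ) {v : E} (hv : v ≠ 0) {ε : ℝ} (hε : 0 < ε)
    (h0 : (0 : E) ∉ ball v ε) (hc : ContinuousOn φ (ball v ε)) (hle : ∀ u ∈ ball v ε, φ u ≤ φ v) :
    ∃ f : E →L[ℝ] ℝ, f ≠ 0 ∧ ∀ u ∈ ball v ε, f u = f v → φ u = φ v := by
  rcases Set.eq_empty_or_nonempty {u | u ∈ ball v ε ∧ φ u < φ v} with hQ | ⟨q, hq⟩
  · obtain ⟨f, hf⟩ := SeparatingDual.exists_ne_zero (R := ℝ) hv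
    refine ⟨f, fun hf0 => hf (by rw [hf0]; rfl), fun u hu _ => ?_⟩
    by_contra hne
    have : u ∈ {u | u ∈ ball v ε ∧ φ u < φ v} := ⟨hu, lt_of_le_of_ne (hle u hu) hne⟩
    rw [hQ] at this
    exact this
  · have hQc := h.convex_lt (convex_ball v ε) h0 hc (φ v)
    have hQo : IsOpen {u | u ∈ ball v ε ∧ φ u < φ v} :=
      hc.isOpen_inter_preimage isOpen_ball isOpen_Iio
    have hNc := h.convex_eq (convex_ball v ε) h0 (φ v)
    have hd : Disjoint {u | u ∈ ball v ε ∧ φ u < φ v} {u | u ∈ ball v ε ∧ φ u = φ v} := by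
      rw [Set.disjoint_left]
      rintro u ⟨_, h1⟩ ⟨_, h2⟩
      exact h1.ne h2
    obtain ⟨f, c, hf1, hf2⟩ := geometric_hahn_banach_open hQc hQo hNc hd
    have hvN : v ∈ {u | u ∈ ball v ε ∧ φ u = φ v} := ⟨mem_ball_self hε, rfl⟩
    refine ⟨f, ?_, ?_⟩
    · rintro rfl
      have h1 := hf1 q hq
      have h2 := hf2 v hvN
      simp only [zero_apply] at h1 h2
      linarith
    · intro u hu huv
      by_contra hne
      have h1 := hf1 u ⟨hu, lt_of_le_of_ne (hle u hu) hne⟩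
      have h2 := hf2 v hvN
      linarith

/-- Local structure off the bad set: the fibre contains a piece of a hyperplane. -/
lemma Sel.local_plane {φ : E → ℝ} (h : Sel φ) {v : E} (hv : v ≠ 0) (hF : v ∉ FF φ) :
    ∃ f : E →L[ℝ] ℝ, f ≠ 0 ∧ ∃ ε > 0, ∀ u ∈ ball v ε, f u = f v → φ u = φ v := by
  obtain ⟨ε₀, hε₀, hsub⟩ := Metric.isOpen_iff.mp (isOpen_compl_FF φ) v ⟨hv, hF⟩
  have h0 : ∀ ε ≤ ε₀, (0 : E) ∉ ball v ε := fun ε hε h' => (hsub (ball_subset_ball hε h')).1 rfl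
  have hc : ∀ ε ≤ ε₀, ContinuousOn φ (ball v ε) := fun ε hε u hu =>
    (h.cont (hsub (ball_subset_ball hε hu)).1 (hsub (ball_subset_ball hε hu)).2).continuousWithinAt
  by_cases hP : ∃ ε, 0 < ε ∧ ε ≤ ε₀ ∧ ∀ u ∈ ball v ε, φ u ≤ φ v
  · obtain ⟨ε, hε, hεε, hle⟩ := hP
    obtain ⟨f, hf, hf'⟩ := h.local_plane_aux hv hε (h0 ε hεε) (hc ε hεε) hle
    exact ⟨f, hf, ε, hε, hf'⟩
  by_cases hQ : ∃ ε, 0 < ε ∧ ε ≤ ε₀ ∧ ∀ u ∈ ball v ε, φ v ≤ φ u
  · obtain ⟨ε, hε, hεε, hle⟩ := hQ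
    obtain ⟨f, hf, hf'⟩ := h.neg.local_plane_aux hv hε (h0 ε hεε) (hc ε hεε).neg
      (fun u hu => neg_le_neg (hle u hu))
    exact ⟨f, hf, ε, hε, fun u hu huv => neg_injective (hf' u hu huv)⟩
  push Not at hP hQ
  have hvP : v ∈ closure {u | u ∈ ball v ε₀ ∧ φ v < φ u} := by
    rw [Metric.mem_closure_iff]
    intro ε hε
    obtain ⟨u, hu, hu'⟩ := hP (min ε ε₀) (lt_min hε hε₀) (min_le_right _ _)
    refine ⟨u, ⟨ball_subset_ball (min_le_right _ _) hu, hu'⟩, ?_⟩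
    rw [dist_comm]
    exact ball_subset_ball (min_le_left _ _) hu
  have hvQ : v ∈ closure {u | u ∈ ball v ε₀ ∧ φ u < φ v} := by
    rw [Metric.mem_closure_iff]
    intro ε hε
    obtain ⟨u, hu, hu'⟩ := hQ (min ε ε₀) (lt_min hε hε₀) (min_le_right _ _)
    refine ⟨u, ⟨ball_subset_ball (min_le_right _ _) hu, hu'⟩, ?_⟩
    rw [dist_comm]
    exact ball_subset_ball (min_le_left _ _) hu
  have hPo : IsOpen {u | u ∈ ball v ε₀ ∧ φ v < φ u} :=
    (hc ε₀ le_rfl).isOpen_inter_preimage isOpen_ball isOpen_Ioi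
  have hQo : IsOpen {u | u ∈ ball v ε₀ ∧ φ u < φ v} :=
    (hc ε₀ le_rfl).isOpen_inter_preimage isOpen_ball isOpen_Iio
  have hd : Disjoint {u | u ∈ ball v ε₀ ∧ φ v < φ u} {u | u ∈ ball v ε₀ ∧ φ u < φ v} := by
    rw [Set.disjoint_left]
    rintro u ⟨_, h1⟩ ⟨_, h2⟩
    exact lt_asymm h1 h2
  obtain ⟨f, c, hf1, hf2⟩ := geometric_hahn_banach_open_open
    (h.convex_gt (convex_ball v ε₀) (h0 ε₀ le_rfl) (hc ε₀ le_rfl) (φ v)) hPo
    (h.convex_lt (convex_ball v ε₀) (h0 ε₀ le_rfl) (hc ε₀ le_rfl) (φ v)) hQo hd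
  have hle1 : f v ≤ c := by
    have : closure {u | u ∈ ball v ε₀ ∧ φ v < φ u} ⊆ {u | f u ≤ c} :=
      closure_minimal (fun u hu => (hf1 u hu).le) (isClosed_le f.continuous continuous_const)
    exact this hvP
  have hle2 : c ≤ f v := by
    have : closure {u | u ∈ ball v ε₀ ∧ φ u < φ v} ⊆ {u | c ≤ f u} :=
      closure_minimal (fun u hu => (hf2 u hu).le) (isClosed_le continuous_const f.continuous)
    exact this hvQ
  refine ⟨f, ?_, ε₀, hε₀, fun u hu huv => ?_⟩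
  · rintro rfl
    obtain ⟨u, hu, hu'⟩ := hP ε₀ hε₀ le_rfl
    obtain ⟨w, hw, hw'⟩ := hQ ε₀ hε₀ le_rfl
    have h1 := hf1 u ⟨hu, hu'⟩
    have h2 := hf2 w ⟨hw, hw'⟩
    simp only [zero_apply] at h1 h2
    linarith
  · rcases lt_trichotomy (φ u) (φ v) with h1 | h1 | h1
    · have := hf2 u ⟨hu, h1⟩; linarith
    · exact h1
    · have := hf1 u ⟨hu, h1⟩; linarith

/-- Regular values: the fibre has empty interior. -/
def Reg (φ : E → ℝ) (y : ℝ) : Prop := interior {v | v ≠ 0 ∧ φ v = y} = ∅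

lemma Reg.neg {φ : E → ℝ} {y : ℝ} (h : Reg φ y) : Reg (fun v => -φ v) (-y) := by
  unfold Reg at h ⊢
  simpa using h

lemma countable_nonreg [SecondCountableTopology E] (φ : E → ℝ) : {y | ¬ Reg φ y}.Countable := by
  apply Set.PairwiseDisjoint.countable_of_nonempty_interior (s := fun y => {v | v ≠ 0 ∧ φ v = y})
  · intro y _ y' _ hne
    rw [Function.onFun, Set.disjoint_left]
    rintro v ⟨_, h1⟩ ⟨_, h2⟩
    exact hne (h1.symm.trans h2)
  · intro y hy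
    exact Set.nonempty_iff_ne_empty.mpr hy

lemma exists_reg [SecondCountableTopology E] (φ : E → ℝ) {a b : ℝ} (hab : a < b) :
    ∃ y ∈ Ioo a b, Reg φ y := by
  have hd : Dense {y | ¬ Reg φ y}ᶜ := (countable_nonreg φ).dense_compl ℝ
  obtain ⟨y, hy, hy'⟩ := hd.exists_mem_open isOpen_Ioo (nonempty_Ioo.mpr hab)
  exact ⟨y, hy', by simpa using hy⟩

/-- The fibre of a regular value lies in a hyperplane. -/
lemma Sel.reg_plane {φ : E → ℝ} (h : Sel φ) {y : ℝ} (hy : Reg φ y) {v : E} (hv : v ≠ 0)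
    (hvy : φ v = y) (hF : v ∉ FF φ) :
    ∃ f : E →L[ℝ] ℝ, f ≠ 0 ∧ (∀ u, u ≠ 0 → φ u = y → f u = 0) ∧
      ∃ ε > 0, ∀ u ∈ ball v ε, f u = 0 → φ u = y := by
  obtain ⟨f, hf0, ε, hε, hf⟩ := h.local_plane hv hF
  have hno : ∀ p, p ∉ interior {v | v ≠ 0 ∧ φ v = y} := by
    intro p hp
    unfold Reg at hy
    rw [hy] at hp
    exact hp
  have hfv : f v = 0 := by
    by_contra hne
    apply hno v
    rw [mem_interior_iff_mem_nhds]
    have hcont : ContinuousAt (fun u => (f v / f u) • u) v := by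
      apply ContinuousAt.smul _ continuousAt_id
      exact continuousAt_const.div f.continuous.continuousAt hne
    have h1 : (f v / f v) • v = v := by rw [div_self hne, one_smul]
    have h2 : ∀ᶠ u in 𝓝 v, (f v / f u) • u ∈ ball v ε := by
      apply hcont.eventually_mem
      rw [h1]; exact ball_mem_nhds v hε
    have h3 : ∀ᶠ u in 𝓝 v, 0 < f v / f u := by
      have : ContinuousAt (fun u => f v / f u) v :=
        continuousAt_const.div f.continuous.continuousAt hne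
      apply this.eventually_const_lt
      change 0 < f v / f v
      rw [div_self hne]; exact one_pos
    filter_upwards [h2, h3, isOpen_ne.mem_nhds hv] with u hu1 hu2 hu3
    refine ⟨hu3, ?_⟩
    have hfu : f u ≠ 0 := by
      intro h'; rw [h', div_zero] at hu2; exact lt_irrefl _ hu2
    have h4 := hf _ hu1 (by rw [map_smul, smul_eq_mul, div_mul_cancel₀ _ hfu])
    rw [h.smul _ _ hu2 hu3] at h4
    rw [h4, hvy]
  have hf' : ∀ u ∈ ball v ε, f u = 0 → φ u = y := fun u hu hfu => by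
    rw [hf u hu (by rw [hfu, hfv]), hvy]
  refine ⟨f, hf0, fun c hc hcy => ?_, ε, hε, hf'⟩
  by_contra hne
  apply hno (v + c)
  rw [mem_interior_iff_mem_nhds]
  have hcont : ContinuousAt (fun u => u - (f u / f c) • c) (v + c) := by fun_prop
  have h1 : v + c - (f (v + c) / f c) • c = v := by
    rw [map_add, hfv, zero_add, div_self hne, one_smul, add_sub_cancel_right]
  have h2 : ∀ᶠ u in 𝓝 (v + c), u - (f u / f c) • c ∈ ball v ε ∩ {0}ᶜ := by
    apply hcont.eventually_mem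
    rw [h1]
    exact inter_mem (ball_mem_nhds v hε) (isOpen_compl_singleton.mem_nhds hv)
  have h3 : ∀ᶠ u in 𝓝 (v + c), 0 < f u / f c := by
    have : ContinuousAt (fun u => f u / f c) (v + c) := by fun_prop
    apply this.eventually_const_lt
    change 0 < f (v + c) / f c
    rw [map_add, hfv, zero_add, div_self hne]; exact one_pos
  filter_upwards [h2, h3] with u hu1 hu2
  obtain ⟨hu1, hu0⟩ := hu1
  have h4 : φ (u - (f u / f c) • c) = y := by
    apply hf' _ hu1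
    rw [map_sub, map_smul, smul_eq_mul, div_mul_cancel₀ _ hne, sub_self]
  obtain ⟨h5, h6⟩ := h.comb hu0 hc (h4.trans hcy.symm) one_pos hu2
  rw [one_smul, sub_add_cancel] at h5 h6
  exact ⟨h5, h6.trans h4⟩

/-- Kernels of functionals. -/
lemma ker_swap {f g : E →L[ℝ] ℝ} (hf : f ≠ 0) (hgf : ∀ u, g u = 0 → f u = 0) :
    ∀ u, f u = 0 → g u = 0 := by
  intro u hu
  by_contra hne
  apply hf
  ext e
  have h1 : g (e - (g e / g u) • u) = 0 := by
    rw [map_sub, map_smul, smul_eq_mul, div_mul_cancel₀ _ hne, sub_self]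
  have h2 := hgf _ h1
  rw [map_sub, map_smul, hu, smul_zero, sub_zero] at h2
  simpa using h2

/-- The clopen argument. -/
lemma Sel.clopen {φ : E → ℝ} (h : Sel φ) {y : ℝ} (hy : Reg φ y) {f : E →L[ℝ] ℝ} (hf0 : f ≠ 0)
    (hf : ∀ u, u ≠ 0 → φ u = y → f u = 0) {S : Set E} (hS : IsPreconnected S)
    (hSf : ∀ u ∈ S, f u = 0) (hS0 : (0 : E) ∉ S) (hne : ∃ u ∈ S, φ u = y)
    (hSF : ∀ u ∈ S, φ u = y → u ∉ FF φ) : ∀ u ∈ S, φ u = y := by
  let U : Set E := {p | ∃ ε > 0, ∀ q ∈ ball p ε, f q = 0 → φ q = y}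
  let V : Set E := {p | p ≠ 0 ∧ p ∉ closure {u | φ u = y}}
  have hU : IsOpen U := by
    rw [Metric.isOpen_iff]
    rintro p ⟨ε, hε, hp⟩
    refine ⟨ε / 2, by linarith, fun p' hp' => ⟨ε / 2, by linarith, fun q hq => hp q ?_⟩⟩
    rw [mem_ball] at *
    linarith [dist_triangle q p' p]
  have hV : IsOpen V := isOpen_ne.inter isClosed_closure.isOpen_compl
  have hN : ∀ u ∈ S, φ u = y → u ∈ U := by
    intro u hu huy
    have hu0 : u ≠ 0 := fun h' => hS0 (h' ▸ hu)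
    obtain ⟨g, hg0, hg1, ε, hε, hg2⟩ := h.reg_plane hy hu0 huy (hSF u hu huy)
    have hker : ∀ w, g w = 0 → f w = 0 := by
      intro w hw
      -- `u + δ w` lies in the fibre
      have hcont : ContinuousAt (fun δ : ℝ => u + δ • w) 0 := by fun_prop
      have h1 : ∀ᶠ δ in 𝓝 (0:ℝ), u + δ • w ∈ ball u ε ∩ {0}ᶜ := by
        apply hcont.eventually_mem
        rw [zero_smul, add_zero]
        exact inter_mem (ball_mem_nhds u hε) (isOpen_compl_singleton.mem_nhds hu0)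
      have h1' : ∀ᶠ δ in 𝓝[>] (0:ℝ), u + δ • w ∈ ball u ε ∩ {0}ᶜ := h1.filter_mono nhdsWithin_le_nhds
      obtain ⟨δ, hδ1, hδ2⟩ := (h1'.and self_mem_nhdsWithin).exists
      have h2 : φ (u + δ • w) = y := hg2 _ hδ1.1 (by
        rw [map_add, map_smul, hw, smul_zero, add_zero]; exact hg1 u hu0 huy)
      have h3 := hf _ hδ1.2 h2
      rw [map_add, map_smul, hf u hu0 huy, zero_add, smul_eq_mul] at h3
      exact (mul_eq_zero.mp h3).resolve_left (ne_of_gt hδ2)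
    exact ⟨ε, hε, fun q hq hfq => hg2 q hq (ker_swap hf0 hker q hfq)⟩
  by_contra hcon
  push Not at hcon
  obtain ⟨p, hp, hpy⟩ := hcon
  obtain ⟨u, hu, huy⟩ := hne
  have hpV : p ∈ V := ⟨fun h' => hS0 (h' ▸ hp), fun hcl => hpy (h.level (fun h' => hS0 (h' ▸ hp)) hcl)⟩
  obtain ⟨q, hq, hqU, hqV⟩ := hS U V hU hV (by
    intro x hx
    by_cases hxy : φ x = y
    · exact Or.inl (hN x hx hxy)
    · have hx0 : x ≠ 0 := fun h' => hS0 (h' ▸ hx)
      exact Or.inr ⟨hx0, fun hcl => hxy (h.level hx0 hcl)⟩) ⟨u, hu, hN u hu huy⟩ ⟨p, hp, hpV⟩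
  obtain ⟨ε, hε, hq'⟩ := hqU
  exact hqV.2 (subset_closure (hq' q (mem_ball_self hε) (hSf q hq)))

end Pool.Agent.H806R2.UM
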