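import Pool.Agent.H806R2.UM3

set_option autoImplicit false

namespace Pool.Agent.H806R2.UM

open Filter Topology Set Metric

variable {E : Type} [NormedAddCommGroup E] [NormedSpace ℝ E]

/-- A good bad point: near `v₀` the bad set has bounded values, and `φ` is unbounded above. -/
structure BP (φ : E → ℝ) (v₀ : E) (ρ n : ℝ) : Prop where
  mem : v₀ ∈ Fp φ
  pos : 0 < ρ
  zero : (0 : E) ∉ ball v₀ ρ
  bound : ∀ u ∈ ball v₀ ρ, u ∈ FF φ → |φ u| ≤ n

lemma BP.center {φ : E → ℝ} {v₀ : E} {ρ n : ℝ} (b : BP φ v₀ ρ n) : |φ v₀| ≤ n :=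
  b.bound v₀ (mem_ball_self b.pos) (Or.inl b.mem)

/-- The fibre of a regular value through the ball contains a hyperplane slice of the ball. -/
lemma slice {φ : E → ℝ} (h : Sel φ) {v₀ : E} {ρ n : ℝ} (b : BP φ v₀ ρ n) {y : ℝ} (hy : Reg φ y)
    (hyn : n < y) {v : E} (hv : v ∈ ball v₀ ρ) (hvy : φ v = y) :
    ∃ f : E →L[ℝ] ℝ, ‖f‖ = 1 ∧ (∀ u, u ≠ 0 → φ u = y → f u = 0) ∧
      ∀ u ∈ ball v₀ ρ, f u = 0 → φ u = y := by
  have hv0 : v ≠ 0 := fun h' => b.zero (h' ▸ hv)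
  have hnF : ∀ u ∈ ball v₀ ρ, φ u = y → u ∉ FF φ := by
    intro u hu huy hF
    have := b.bound u hu hF
    rw [huy] at this
    exact absurd (le_of_abs_le this) (not_le.mpr hyn)
  obtain ⟨f, hf0, hf1, _⟩ := h.reg_plane hy hv0 hvy (hnF v hv hvy)
  have hfn : ‖f‖ ≠ 0 := norm_ne_zero_iff.mpr hf0
  refine ⟨‖f‖⁻¹ • f, ?_, ?_, ?_⟩
  · rw [norm_smul, norm_inv, norm_norm, inv_mul_cancel₀ hfn]
  · intro u hu huy
    simp [hf1 u hu huy]
  · have hS : IsPreconnected (ball v₀ ρ ∩ {u | f u = 0}) := by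
      apply Convex.isPreconnected
      apply (convex_ball v₀ ρ).inter
      intro x hx y hy a b _ _ _
      simp only [Set.mem_ofPred_eq] at hx hy ⊢
      rw [map_add, map_smul, map_smul, hx, hy]; simp
    have := h.clopen hy hf0 hf1 hS (fun u hu => hu.2) (fun h' => b.zero h'.1)
      ⟨v, ⟨hv, hf1 v hv0 hvy⟩, hvy⟩ (fun u hu => hnF u hu.1)
    intro u hu hfu
    apply this u ⟨hu, ?_⟩
    have h2 : ‖f‖⁻¹ * f u = 0 := hfu
    exact (mul_eq_zero.mp h2).resolve_left (inv_ne_zero hfn)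

/-- Large regular values occur near a good bad point. -/
lemma reg_approx [SecondCountableTopology E] {φ : E → ℝ} (h : Sel φ) {v₀ : E} {ρ n : ℝ}
    (b : BP φ v₀ ρ n) {δ C : ℝ} (hδ : 0 < δ) : ∃ v ∈ ball v₀ δ, C < φ v ∧ Reg φ (φ v) := by
  -- shrink
  obtain ⟨δ', hδ', hδδ, hδρ⟩ : ∃ δ', 0 < δ' ∧ δ' ≤ δ ∧ δ' ≤ ρ :=
    ⟨min δ ρ, lt_min hδ b.pos, min_le_left _ _, min_le_right _ _⟩
  set C' := max C n with hC'
  obtain ⟨u, hu, hud⟩ := Metric.mem_closure_iff.mp (b.mem.2 (C' + 1)) δ' hδ'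
  simp only [Set.mem_ofPred_eq] at hu
  have hub : u ∈ ball v₀ δ' := by rw [mem_ball, dist_comm]; exact hud
  let γ : ℝ → E := fun s => u + s • (v₀ - u)
  have hγc : Continuous γ := by fun_prop
  have hγb : ∀ s ∈ Icc (0:ℝ) 1, γ s ∈ ball v₀ δ' := by
    intro s hs
    have := (convex_ball v₀ δ') hub (mem_ball_self hδ') (a := 1 - s) (b := s) (by linarith [hs.2])
      hs.1 (by ring)
    convert this using 1
    simp only [γ]; module
  have hγρ : ∀ s ∈ Icc (0:ℝ) 1, γ s ∈ ball v₀ ρ := fun s hs => ball_subset_ball hδρ (hγb s hs)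
  have hγ0 : ∀ s ∈ Icc (0:ℝ) 1, γ s ≠ 0 := fun s hs h' => b.zero (h' ▸ hγρ s hs)
  have h0 : γ 0 = u := by simp [γ]
  have h1 : γ 1 = v₀ := by simp [γ]
  have hn : n ≤ C' := le_max_right _ _
  -- first bad time
  have hne : (Icc (0:ℝ) 1 ∩ γ ⁻¹' (closure (FF φ))).Nonempty :=
    ⟨1, ⟨zero_le_one, le_rfl⟩, by rw [mem_preimage, h1]; exact subset_closure (Or.inl b.mem)⟩
  have hcpt : IsCompact (Icc (0:ℝ) 1 ∩ γ ⁻¹' (closure (FF φ))) :=
    isCompact_Icc.inter_right (isClosed_closure.preimage hγc)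
  obtain ⟨s₀, ⟨hs₀, hs₀F⟩, hs₀l⟩ := hcpt.exists_isLeast hne
  have hs₀F' : γ s₀ ∈ FF φ := FF_of_closure (hγ0 s₀ hs₀) hs₀F
  have hs₀n := b.bound _ (hγρ s₀ hs₀) hs₀F'
  have hs₀pos : 0 < s₀ := by
    rcases hs₀.1.eq_or_lt with h' | h'
    · exfalso
      rw [← h', h0] at hs₀n
      linarith [le_of_abs_le hs₀n]
    · exact h'
  have hgood : ∀ s, 0 ≤ s → s < s₀ → γ s ∉ FF φ := by
    intro s hs hss hF
    have := hs₀l ⟨⟨hs, hss.le.trans hs₀.2⟩, subset_closure hF⟩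
    linarith
  -- a point with another value
  have hex : ∃ s, 0 ≤ s ∧ s < s₀ ∧ φ (γ s) ≠ φ u := by
    by_contra hcon
    push Not at hcon
    have hcl : γ s₀ ∈ closure {v | φ v = φ u} := by
      have hlim : Tendsto γ (𝓝[<] s₀) (𝓝 (γ s₀)) := (hγc.tendsto s₀).mono_left nhdsWithin_le_nhds
      apply mem_closure_of_tendsto hlim
      filter_upwards [Ioo_mem_nhdsLT hs₀pos] with s hs
      exact hcon s hs.1.le hs.2
    have := h.level (hγ0 s₀ hs₀) hcl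
    rw [this] at hs₀n
    linarith [le_of_abs_le hs₀n]
  obtain ⟨s, hs0, hss, hsne⟩ := hex
  have hcont : ContinuousOn (fun s => φ (γ s)) (Icc 0 s) := by
    intro r hr
    have hr1 : r ∈ Icc (0:ℝ) 1 := ⟨hr.1, hr.2.trans (hss.le.trans hs₀.2)⟩
    have := h.cont (hγ0 r hr1) (hgood r hr.1 (hr.2.trans_lt hss))
    exact (ContinuousAt.comp this hγc.continuousAt).continuousWithinAt
  have hC2 : C' < φ u := by linarith
  rcases lt_or_gt_of_ne hsne with hlt | hgt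
  · obtain ⟨y, hy, hyr⟩ := exists_reg φ (show max C' (φ (γ s)) < φ u from max_lt hC2 hlt)
    obtain ⟨r, hr, hry⟩ := intermediate_value_Icc' hs0 hcont
      ⟨((le_max_right _ _).trans_lt hy.1).le, by simpa [h0] using hy.2.le⟩
    simp only at hry
    refine ⟨γ r, ball_subset_ball hδδ (hγb r ⟨hr.1, hr.2.trans (hss.le.trans hs₀.2)⟩), ?_, ?_⟩
    · rw [hry]
      exact ((le_max_left C n).trans (le_max_left _ _)).trans_lt hy.1
    · rw [hry]; exact hyr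
  · obtain ⟨y, hy, hyr⟩ := exists_reg φ hgt
    obtain ⟨r, hr, hry⟩ := intermediate_value_Icc hs0 hcont
      ⟨by simpa [h0] using hy.1.le, hy.2.le⟩
    simp only at hry
    refine ⟨γ r, ball_subset_ball hδδ (hγb r ⟨hr.1, hr.2.trans (hss.le.trans hs₀.2)⟩), ?_, ?_⟩
    · rw [hry]
      exact ((le_max_left C n).trans_lt hC2).trans hy.1
    · rw [hry]; exact hyr

/-- The limiting hyperplane at a good bad point. -/
lemma limit_plane [FiniteDimensional ℝ E] {φ : E → ℝ} (h : Sel φ) {v₀ : E} {ρ n : ℝ}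
    (b : BP φ v₀ ρ n) : ∃ ℓ : E →L[ℝ] ℝ, ℓ ≠ 0 ∧ ℓ v₀ = 0 ∧
      (∀ u ∈ ball v₀ ρ, ℓ u = 0 → u ∈ Fp φ) ∧
      ∀ w, ℓ w ≠ 0 → ∀ β : ℝ, 0 < β → ∀ C : ℝ, ∃ t : ℝ, |t| < β ∧ C < φ (v₀ + t • w) := by
  haveI : ProperSpace E := FiniteDimensional.proper_real E
  have hex : ∀ k : ℕ, ∃ v ∈ ball v₀ (min (1 / ((k:ℝ) + 1)) ρ), max (k:ℝ) n < φ v ∧ Reg φ (φ v) :=
    fun k => reg_approx h b (lt_min (by positivity) b.pos)
  choose v hv1 hv2 hv3 using hex
  have hvρ : ∀ k, v k ∈ ball v₀ ρ := fun k => ball_subset_ball (min_le_right _ _) (hv1 k)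
  have hv0 : ∀ k, v k ≠ 0 := fun k h' => b.zero (h' ▸ hvρ k)
  have hsl : ∀ k, ∃ f : E →L[ℝ] ℝ, ‖f‖ = 1 ∧ (∀ u, u ≠ 0 → φ u = φ (v k) → f u = 0) ∧
      ∀ u ∈ ball v₀ ρ, f u = 0 → φ u = φ (v k) := fun k =>
    slice h b (hv3 k) ((le_max_right _ _).trans_lt (hv2 k)) (hvρ k) rfl
  choose f hf1 hf2 hf3 using hsl
  have hvlim : Tendsto v atTop (𝓝 v₀) := by
    rw [tendsto_iff_dist_tendsto_zero]
    exact squeeze_zero (fun k => dist_nonneg) (fun k => ((hv1 k).le.trans (min_le_left _ _)))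
      tendsto_one_div_add_atTop_nhds_zero_nat
  have hylim : Tendsto (fun k => φ (v k)) atTop atTop :=
    tendsto_atTop_mono (fun k => ((le_max_left _ _).trans_lt (hv2 k)).le) tendsto_natCast_atTop_atTop
  obtain ⟨ℓ, hℓ, g, hg, hglim⟩ := (isCompact_sphere (0 : E →L[ℝ] ℝ) 1).tendsto_subseq
    (x := f) (fun k => by rw [mem_sphere_zero_iff_norm]; exact hf1 k)
  rw [mem_sphere_zero_iff_norm] at hℓ
  have hℓ0 : ℓ ≠ 0 := by rintro rfl; simp at hℓ
  have hgt := hg.tendsto_atTop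
  have heval : ∀ (u : ℕ → E) (u' : E), Tendsto u atTop (𝓝 u') →
      Tendsto (fun k => f (g k) (u k)) atTop (𝓝 (ℓ u')) := by
    intro u u' hu
    have h1 : Tendsto (fun k => ((f ∘ g) k, u k)) atTop (𝓝 (ℓ, u')) := hglim.prodMk_nhds hu
    exact (isBoundedBilinearMap_apply.continuous.tendsto (ℓ, u')).comp h1
  have hc : Tendsto (fun k => f (g k) v₀) atTop (𝓝 (ℓ v₀)) := heval _ _ tendsto_const_nhds
  have hℓv : ℓ v₀ = 0 := by
    have h1 : Tendsto (fun k => f (g k) (v (g k))) atTop (𝓝 (ℓ v₀)) := heval _ _ (hvlim.comp hgt)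
    have h2 : (fun k => f (g k) (v (g k))) = fun _ => (0:ℝ) :=
      funext fun k => hf2 (g k) _ (hv0 _) rfl
    rw [h2] at h1
    exact tendsto_nhds_unique h1 tendsto_const_nhds
  obtain ⟨e, he⟩ : ∃ e, ℓ e ≠ 0 := by
    by_contra hcon
    push Not at hcon
    exact hℓ0 (ContinuousLinearMap.ext hcon)
  refine ⟨ℓ, hℓ0, hℓv, ?_, ?_⟩
  · intro u hu hℓu
    have hu0 : u ≠ 0 := fun h' => b.zero (h' ▸ hu)
    have h1 : Tendsto (fun k => f (g k) u) atTop (𝓝 0) := by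
      rw [← hℓu]; exact heval _ _ tendsto_const_nhds
    have h2 : Tendsto (fun k => f (g k) e) atTop (𝓝 (ℓ e)) := heval _ _ tendsto_const_nhds
    have h3 : Tendsto (fun k => u - (f (g k) u / f (g k) e) • e) atTop (𝓝 u) := by
      have : Tendsto (fun k => u - (f (g k) u / f (g k) e) • e) atTop (𝓝 (u - (0 / ℓ e) • e)) :=
        tendsto_const_nhds.sub ((h1.div h2 he).smul tendsto_const_nhds)
      simpa using this
    have h4 : ∀ᶠ k in atTop, φ (u - (f (g k) u / f (g k) e) • e) = φ (v (g k)) := by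
      filter_upwards [h3.eventually_mem (isOpen_ball.mem_nhds hu), h2.eventually_ne he] with k hk1 hk2
      apply hf3 _ _ hk1
      rw [map_sub, map_smul, smul_eq_mul, div_mul_cancel₀ _ hk2, sub_self]
    apply Fp_of_seq hu0 h3
    exact (hylim.comp hgt).congr' (h4.mono fun k hk => hk.symm)
  · intro w hw β hβ C
    have h2 : Tendsto (fun k => f (g k) w) atTop (𝓝 (ℓ w)) := heval _ _ tendsto_const_nhds
    have h5 : Tendsto (fun k => -(f (g k) v₀ / f (g k) w)) atTop (𝓝 0) := by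
      have := (hc.div h2 hw).neg
      rw [hℓv] at this
      simpa using this
    have h6 : Tendsto (fun k => v₀ + (-(f (g k) v₀ / f (g k) w)) • w) atTop (𝓝 v₀) := by
      have : Tendsto (fun k => v₀ + (-(f (g k) v₀ / f (g k) w)) • w) atTop (𝓝 (v₀ + (0:ℝ) • w)) :=
        tendsto_const_nhds.add (h5.smul tendsto_const_nhds)
      simpa using this
    have h7 : ∀ᶠ k in atTop, |-(f (g k) v₀ / f (g k) w)| < β := by
      have := h5.abs
      rw [abs_zero] at this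
      exact this.eventually_lt_const hβ
    obtain ⟨k, ⟨⟨hk1, hk2⟩, hk3⟩, hk4⟩ := (((h7.and (h6.eventually_mem
      (isOpen_ball.mem_nhds (mem_ball_self b.pos)))).and (h2.eventually_ne hw)).and
      ((hylim.comp hgt).eventually_gt_atTop C)).exists
    refine ⟨_, hk1, ?_⟩
    rw [hf3 _ _ hk2 (by
      rw [map_add, map_smul, smul_eq_mul, neg_mul, div_mul_cancel₀ _ hk3, add_neg_cancel])]
    exact hk4

/-- Blow-up along a half-line where `φ` takes arbitrarily large values. -/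
lemma blowup {φ : E → ℝ} (h : Sel φ) {v₀ : E} {ρ n : ℝ} (b : BP φ v₀ ρ n) {w : E}
    (hcr : ∀ β : ℝ, 0 < β → ∀ C : ℝ, ∃ t ∈ Ioo 0 β, C < φ (v₀ + t • w)) :
    ∃ β : ℝ, 0 < β ∧ (∀ t ∈ Ioo 0 β, v₀ + t • w ∈ ball v₀ ρ ∧ v₀ + t • w ∉ FF φ) ∧
      Tendsto (fun t : ℝ => φ (v₀ + t • w)) (𝓝[>] 0) atTop := by
  have hcont : Continuous (fun t : ℝ => v₀ + t • w) := by fun_prop
  obtain ⟨τ, hτ, hτρ⟩ : ∃ τ : ℝ, 0 < τ ∧ ∀ t ∈ Ioo 0 τ, v₀ + t • w ∈ ball v₀ ρ := by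
    have h1 : ∀ᶠ t in 𝓝 (0:ℝ), v₀ + t • w ∈ ball v₀ ρ := by
      apply hcont.continuousAt.eventually_mem
      apply isOpen_ball.mem_nhds
      rw [zero_smul, add_zero]; exact mem_ball_self b.pos
    obtain ⟨τ, hτ, hτ'⟩ := Metric.eventually_nhds_iff.mp h1
    refine ⟨τ, hτ, fun t ht => hτ' ?_⟩
    rw [Real.dist_eq, sub_zero, abs_of_pos ht.1]; exact ht.2
  have hne : ∀ t ∈ Ioo 0 τ, v₀ + t • w ≠ 0 := fun t ht h' => b.zero (h' ▸ hτρ t ht)
  obtain ⟨β, hβ, hβτ, hβF, hlim⟩ := gap_lemma (ψ := fun t => φ (v₀ + t • w)) (τ := τ) (n := n)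
    (K := (fun t : ℝ => v₀ + t • w) ⁻¹' closure (FF φ)) hτ (isClosed_closure.preimage hcont)
    (fun t ht htK => by
      have h1 : v₀ + t • w ∉ FF φ := fun hF => htK (subset_closure hF)
      exact ContinuousAt.comp (f := fun t : ℝ => v₀ + t • w) (h.cont (hne t ht) h1)
        hcont.continuousAt)
    (fun t ht htK => le_of_abs_le (b.bound _ (hτρ t ht) (FF_of_closure (hne t ht) htK)))
    (fun t ht s x hs hx => h.closed _ (hne t ht) (fun k => v₀ + s k • w) x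
      ((hcont.tendsto t).comp hs) hx)
    (fun s₁ h₁ s₂ h₂ s hs₁ hs₂ heq => (h.fibre_line (hne s₁ h₁) (hne s₂ h₂) hs₁ hs₂ heq).2)
    hcr
  refine ⟨β, hβ, fun t ht => ⟨hτρ t ⟨ht.1, ht.2.trans_le hβτ⟩, fun hF => hβF t ht
    (subset_closure hF)⟩, hlim⟩

/-- Choose the sign of the direction. -/
lemma sign_choice {φ : E → ℝ} {v₀ w : E}
    (hcr : ∀ β : ℝ, 0 < β → ∀ C : ℝ, ∃ t : ℝ, |t| < β ∧ C < φ (v₀ + t • w)) :
    (∀ β : ℝ, 0 < β → ∀ C : ℝ, ∃ t ∈ Ioo 0 β, C < φ (v₀ + t • w)) ∨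
    (∀ β : ℝ, 0 < β → ∀ C : ℝ, ∃ t ∈ Ioo 0 β, C < φ (v₀ + t • (-w))) := by
  by_contra hcon
  push Not at hcon
  obtain ⟨⟨β₁, hβ₁, C₁, h1⟩, β₂, hβ₂, C₂, h2⟩ := hcon
  obtain ⟨t, ht, ht'⟩ := hcr (min β₁ β₂) (lt_min hβ₁ hβ₂) (max (max C₁ C₂) (φ v₀))
  rcases lt_trichotomy t 0 with h | h | h
  · have := h2 (-t) ⟨by linarith, by rw [abs_of_neg h] at ht; exact ht.trans_le (min_le_right _ _)⟩
    rw [neg_smul_neg] at this
    have h3 := ((le_max_right C₁ C₂).trans (le_max_left _ (φ v₀))).trans_lt ht'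
    linarith
  · rw [h, zero_smul, add_zero] at ht'
    exact absurd ((le_max_right _ _).trans_lt ht') (lt_irrefl _)
  · have := h1 t ⟨h, by rw [abs_of_pos h] at ht; exact ht.trans_le (min_le_left _ _)⟩
    have h3 := ((le_max_left C₁ C₂).trans (le_max_left _ (φ v₀))).trans_lt ht'
    linarith

/-- Continuity of `φ` along a good half-line. -/
lemma line_cont {φ : E → ℝ} (h : Sel φ) {v₀ w : E} {β : ℝ}
    (hg : ∀ t ∈ Ioo 0 β, v₀ + t • w ≠ 0 ∧ v₀ + t • w ∉ FF φ) :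
    ContinuousOn (fun t : ℝ => φ (v₀ + t • w)) (Ioo 0 β) := by
  intro t ht
  exact (ContinuousAt.comp (f := fun t : ℝ => v₀ + t • w) (h.cont (hg t ht).1 (hg t ht).2)
    (by fun_prop)).continuousWithinAt

/-- For values tending to `+∞` we find parameters tending to `0`. -/
lemma attain_seq {ψ : ℝ → ℝ} {β : ℝ} (hβ : 0 < β) (hc : ContinuousOn ψ (Ioo 0 β))
    (hlim : Tendsto ψ (𝓝[>] 0) atTop) {z : ℕ → ℝ} (hz : Tendsto z atTop atTop) :
    ∃ t : ℕ → ℝ, Tendsto t atTop (𝓝 0) ∧ ∀ᶠ k in atTop, t k ∈ Ioo 0 β ∧ ψ (t k) = z k := by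
  classical
  let t : ℕ → ℝ := fun k => if hk : ∃ s ∈ Ioo 0 β, ψ s = z k ∧ ∀ m : ℕ, s ≤ β / (m + 2) ∨
    z k ≤ ψ (β / (m + 2)) then hk.choose else 0
  have hpt : ∀ m : ℕ, β / (m + 2) ∈ Ioo 0 β := fun m => ⟨by positivity, by
    rw [div_lt_iff₀ (by positivity)]; nlinarith [(Nat.cast_nonneg m : (0:ℝ) ≤ m)]⟩
  -- for every large value there is a solution which is small
  have hex : ∀ᶠ k in atTop, ∃ s ∈ Ioo 0 β, ψ s = z k ∧ ∀ m : ℕ, s ≤ β / (m + 2) ∨
      z k ≤ ψ (β / (m + 2)) := by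
    filter_upwards [hz.eventually_gt_atTop (ψ (β / ((0:ℕ) + 2)))] with k hk
    -- the number of `m` with `ψ (β/(m+2)) < z k` is bounded
    have hfin : ∃ M : ℕ, ∀ m : ℕ, M ≤ m → z k ≤ ψ (β / (m + 2)) := by
      have h1 : Tendsto (fun m : ℕ => β / ((m:ℝ) + 2)) atTop (𝓝[>] 0) := by
        rw [tendsto_nhdsWithin_iff]
        refine ⟨?_, Eventually.of_forall fun m => (hpt m).1⟩
        apply Filter.Tendsto.div_atTop tendsto_const_nhds
        exact tendsto_atTop_add_const_right _ _ tendsto_natCast_atTop_atTop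
      obtain ⟨M, hM⟩ := eventually_atTop.mp ((hlim.comp h1).eventually_ge_atTop (z k))
      exact ⟨M, hM⟩
    obtain ⟨M, hM⟩ := hfin
    have hMpos : 0 < M := by
      rcases Nat.eq_zero_or_pos M with h0 | h0
      · exfalso
        have := hM 0 (by omega)
        push_cast at this hk
        linarith
      · exact h0
    -- take the largest `m < M` with `ψ < z k`
    have hS : ((Finset.range M).filter (fun m : ℕ => ψ (β / (m + 2)) < z k)).Nonempty :=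
      ⟨0, by rw [Finset.mem_filter, Finset.mem_range]; exact ⟨hMpos, by push_cast; push_cast at hk; exact hk⟩⟩
    obtain ⟨m₀, hm₀, hmax⟩ := Finset.exists_max_image _ (fun m : ℕ => m) hS
    rw [Finset.mem_filter, Finset.mem_range] at hm₀
    obtain ⟨s, hs, hs'⟩ := attain hc hlim (hpt m₀) hm₀.2
    refine ⟨s, ⟨hs.1, hs.2.trans (hpt m₀).2⟩, hs', fun m => ?_⟩
    by_cases hm : ψ (β / (m + 2)) < z k
    · left
      have hmM : m < M := by
        by_contra hge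
        exact absurd (hM m (not_lt.mp hge)) (not_le.mpr hm)
      have hle := hmax m (by rw [Finset.mem_filter, Finset.mem_range]; exact ⟨hmM, hm⟩)
      refine hs.2.le.trans ?_
      apply div_le_div_of_nonneg_left hβ.le (by positivity)
      have : (m:ℝ) ≤ m₀ := by exact_mod_cast hle
      linarith
    · right; exact not_lt.mp hm
  refine ⟨t, ?_, ?_⟩
  · rw [Metric.tendsto_atTop]
    intro ε hε
    obtain ⟨m, hm⟩ : ∃ m : ℕ, β / (m + 2) < ε := by
      obtain ⟨m, hm⟩ := exists_nat_gt (β / ε)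
      refine ⟨m, ?_⟩
      rw [div_lt_iff₀ (by positivity)]
      rw [div_lt_iff₀ hε] at hm
      nlinarith
    have h3 := (hex.and (hz.eventually_gt_atTop (ψ (β / (m + 2)))))
    obtain ⟨N, hN⟩ := eventually_atTop.mp h3
    refine ⟨N, fun k hk => ?_⟩
    obtain ⟨hk1, hk2⟩ := hN k hk
    have ht : t k = hk1.choose := dif_pos hk1
    obtain ⟨hs1, hs2, hs3⟩ := hk1.choose_spec
    rw [Real.dist_eq, sub_zero, ht, abs_of_pos hs1.1]
    rcases hs3 m with h4 | h4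
    · exact h4.trans_lt hm
    · exact absurd hk2 (not_lt.mpr h4)
  · filter_upwards [hex] with k hk
    have ht : t k = hk.choose := dif_pos hk
    rw [ht]
    exact ⟨hk.choose_spec.1, hk.choose_spec.2.1⟩

end Pool.Agent.H806R2.UM
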