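import Pool.Agent.H806R2.UM4

set_option autoImplicit false

namespace Pool.Agent.H806R2.UM

open Filter Topology Set Metric

variable {E : Type} [NormedAddCommGroup E] [NormedSpace ℝ E]

/-- Linear independence of a pair. -/
def Ind (a b : E) : Prop := ∀ x y : ℝ, x • a + y • b = 0 → x = 0 ∧ y = 0

lemma Ind.left {a b : E} (h : Ind a b) : a ≠ 0 := by
  rintro rfl
  have := (h 1 0 (by simp)).1
  exact one_ne_zero this

lemma Ind.right {a b : E} (h : Ind a b) : b ≠ 0 := by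
  rintro rfl
  have := (h 0 1 (by simp)).2
  exact one_ne_zero this

lemma coords [FiniteDimensional ℝ E] (hfr : Module.finrank ℝ E = 3) {a b w : E} (hab : Ind a b)
    {ℓ : E →L[ℝ] ℝ} (ha : ℓ a = 0) (hb : ℓ b = 0) (hw : ℓ w ≠ 0) :
    ∃ c₀ c₁ c₂ : E →L[ℝ] ℝ, (∀ u, c₀ u • a + c₁ u • b + c₂ u • w = u) ∧
      c₀ b = 0 ∧ c₁ b = 1 ∧ c₂ b = 0 := by
  have hli : LinearIndependent ℝ ![a, b, w] := by
    rw [Fintype.linearIndependent_iff]
    intro g hg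
    rw [Fin.sum_univ_three] at hg
    simp only [Matrix.cons_val_zero, Matrix.cons_val_one, Matrix.cons_val] at hg
    have h1 := congrArg ℓ hg
    simp only [map_add, map_smul, ha, hb, mul_zero, zero_add, map_zero, smul_eq_mul] at h1
    have h2 : g 2 = 0 := (mul_eq_zero.mp h1).resolve_right hw
    rw [h2, zero_smul, add_zero] at hg
    obtain ⟨h3, h4⟩ := hab _ _ hg
    intro i
    fin_cases i <;> simp_all
  let B : Module.Basis (Fin 3) ℝ E := basisOfLinearIndependentOfCardEqFinrank hli (by simp [hfr])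
  have hB : ∀ i, B i = ![a, b, w] i := fun i => by
    simp [B]
  refine ⟨(B.coord 0).toContinuousLinearMap, (B.coord 1).toContinuousLinearMap,
    (B.coord 2).toContinuousLinearMap, ?_, ?_, ?_, ?_⟩
  · intro u
    have h1 := B.sum_repr u
    rw [Fin.sum_univ_three, hB, hB, hB] at h1
    simpa using h1
  all_goals
    have hb1 : b = B 1 := by rw [hB]; rfl
    rw [hb1]
    simp [Module.Basis.coord_apply, Module.Basis.repr_self]

/-- The points of unbounded growth lie in the limiting hyperplane. -/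
lemma Fp_sub {φ : E → ℝ} (h : Sel φ) {v₀ : E} {ρ n : ℝ} (b : BP φ v₀ ρ n) {ℓ : E →L[ℝ] ℝ}
    (hℓv : ℓ v₀ = 0) (hsl : ∀ u ∈ ball v₀ ρ, ℓ u = 0 → u ∈ Fp φ)
    (hcr : ∀ w, ℓ w ≠ 0 → ∀ β : ℝ, 0 < β → ∀ C : ℝ, ∃ t : ℝ, |t| < β ∧ C < φ (v₀ + t • w))
    {p : E} (hp : p ∈ Fp φ) : ℓ p = 0 := by
  by_contra hne
  have hp0 : p ≠ 0 := hp.1
  obtain ⟨u, hu, hφu, hu0⟩ := seq_of_Fp hp
  rcases sign_choice (hcr p hne) with hs | hs
  · obtain ⟨β, hβ, hg, hlim⟩ := blowup h b hs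
    have hg' : ∀ t ∈ Ioo 0 β, v₀ + t • p ≠ 0 ∧ v₀ + t • p ∉ FF φ := fun t ht =>
      ⟨fun h' => b.zero (h' ▸ (hg t ht).1), (hg t ht).2⟩
    obtain ⟨t, ht, ht'⟩ := attain_seq hβ (line_cont h hg') hlim hφu
    have hmid : β / 2 ∈ Ioo 0 β := ⟨by linarith, by linarith⟩
    apply (hg' _ hmid).2
    refine Or.inl (Fp_of_seq (u := fun k => (v₀ + t k • p) + (β / 2 - t k) • u k) (hg' _ hmid).1 ?_ ?_)
    · have h1 : Tendsto (fun k => (v₀ + t k • p) + (β / 2 - t k) • u k) atTop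
          (𝓝 ((v₀ + (0:ℝ) • p) + (β / 2 - 0) • p)) :=
        (tendsto_const_nhds.add (ht.smul tendsto_const_nhds)).add ((tendsto_const_nhds.sub ht).smul hu)
      simpa using h1
    · refine hφu.congr' ?_
      filter_upwards [ht', ht.eventually_lt_const hmid.1] with k hk1 hk2
      have h2 := h.comb (hg' _ hk1.1).1 (hu0 k) hk1.2 one_pos (sub_pos.mpr hk2)
      rw [one_smul] at h2
      exact (h2.2.trans hk1.2).symm
  · obtain ⟨β, hβ, hg, hlim⟩ := blowup h b hs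
    have hg' : ∀ t ∈ Ioo 0 β, v₀ + t • (-p) ≠ 0 ∧ v₀ + t • (-p) ∉ FF φ := fun t ht =>
      ⟨fun h' => b.zero (h' ▸ (hg t ht).1), (hg t ht).2⟩
    obtain ⟨t, ht, ht'⟩ := attain_seq hβ (line_cont h hg') hlim hφu
    have hℓu : Tendsto (fun k => ℓ (u k)) atTop (𝓝 (ℓ p)) := (ℓ.continuous.tendsto p).comp hu
    have hratio : Tendsto (fun k => ℓ p / ℓ (u k)) atTop (𝓝 1) := by
      have := (tendsto_const_nhds (x := ℓ p)).div hℓu hne
      rwa [div_self hne] at this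
    have hslim : Tendsto (fun k => t k * (ℓ p / ℓ (u k))) atTop (𝓝 0) := by
      have := ht.mul hratio
      rwa [zero_mul] at this
    have hq : Tendsto (fun k => (v₀ + t k • (-p)) + (t k * (ℓ p / ℓ (u k))) • u k) atTop (𝓝 v₀) := by
      have h1 : Tendsto (fun k => (v₀ + t k • (-p)) + (t k * (ℓ p / ℓ (u k))) • u k) atTop
          (𝓝 ((v₀ + (0:ℝ) • (-p)) + (0:ℝ) • p)) :=
        (tendsto_const_nhds.add (ht.smul tendsto_const_nhds)).add (hslim.smul hu)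
      simpa using h1
    obtain ⟨k, ⟨⟨⟨⟨hk1, hk2⟩, hk3⟩, hk4⟩, hk5⟩⟩ := ((((ht'.and (hratio.eventually_const_lt one_pos)).and
      (hq.eventually_mem (isOpen_ball.mem_nhds (mem_ball_self b.pos)))).and
      (hℓu.eventually_ne hne)).and (hφu.eventually_gt_atTop n)).exists
    have h2 := h.comb (hg' _ hk1.1).1 (hu0 k) hk1.2 one_pos (mul_pos hk1.1.1 hk2)
    rw [one_smul] at h2
    have hℓq : ℓ ((v₀ + t k • (-p)) + (t k * (ℓ p / ℓ (u k))) • u k) = 0 := by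
      simp only [map_add, map_smul, map_neg, hℓv, smul_eq_mul]
      field_simp
      ring
    have h3 := b.bound _ hk3 (Or.inl (hsl _ hk3 hℓq))
    rw [h2.2, hk1.2] at h3
    exact absurd (le_of_abs_le h3) (not_le.mpr hk5)

/-- A functional of norm one vanishing on `Fp`. -/
lemma exists_plane [FiniteDimensional ℝ E] {φ : E → ℝ} (h : Sel φ) {v₀ : E} {ρ n : ℝ}
    (b : BP φ v₀ ρ n) : ∃ ℓ : E →L[ℝ] ℝ, ℓ ≠ 0 ∧ ℓ v₀ = 0 ∧ (∀ p ∈ Fp φ, ℓ p = 0) ∧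
      ∀ w, ℓ w ≠ 0 → ∀ β : ℝ, 0 < β → ∀ C : ℝ, ∃ t : ℝ, |t| < β ∧ C < φ (v₀ + t • w) := by
  obtain ⟨ℓ, h0, hv, hsl, hcr⟩ := limit_plane h b
  exact ⟨ℓ, h0, hv, fun p hp => Fp_sub h b hv hsl hcr hp, hcr⟩

lemma exists_BP [CompleteSpace E] {φ : E → ℝ} (h : Sel φ) {Ω : Set E} (hΩ : IsOpen Ω)
    (hne : (FF φ ∩ Ω).Nonempty) : ∃ v ∈ Ω, ∃ ρ n : ℝ,
      BP φ v ρ n ∨ BP (fun v => -φ v) v ρ n := by
  obtain ⟨v, hv, ε, hε, n, hsub, h0, hb⟩ := h.baire hΩ hne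
  refine ⟨v, hsub (mem_ball_self hε), ε, n, ?_⟩
  rcases hv with hv | hv
  · exact Or.inl ⟨hv, hε, h0, hb⟩
  · refine Or.inr ⟨hv, hε, h0, fun u hu hF => ?_⟩
    rw [abs_neg]
    rw [FF_neg] at hF
    exact hb u hu hF

/-- Both families of bad points lie in hyperplanes. -/
lemma two_planes [FiniteDimensional ℝ E] {φ : E → ℝ} (h : Sel φ) {v₀ : E} {ρ n : ℝ}
    (b : BP φ v₀ ρ n) : ∃ ℓ m : E →L[ℝ] ℝ, ℓ ≠ 0 ∧ m ≠ 0 ∧ ℓ v₀ = 0 ∧ (∀ p ∈ Fp φ, ℓ p = 0) ∧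
      (∀ p ∈ Fp (fun v => -φ v), m p = 0) ∧
      ∀ w, ℓ w ≠ 0 → ∀ β : ℝ, 0 < β → ∀ C : ℝ, ∃ t : ℝ, |t| < β ∧ C < φ (v₀ + t • w) := by
  haveI : CompleteSpace E := FiniteDimensional.complete ℝ E
  obtain ⟨ℓ, h0, hv, hp, hcr⟩ := exists_plane h b
  by_cases hm : ∀ p ∈ Fp (fun v => -φ v), ℓ p = 0
  · exact ⟨ℓ, ℓ, h0, h0, hv, hp, hm, hcr⟩
  · push Not at hm
    obtain ⟨p, hpF, hpℓ⟩ := hm
    obtain ⟨v, hvΩ, ρ', n', hb | hb⟩ := exists_BP h (Ω := {u | ℓ u ≠ 0})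
      (isOpen_ne_fun ℓ.continuous continuous_const) ⟨p, Or.inr hpF, hpℓ⟩
    · exact absurd (hp v hb.mem) hvΩ
    · obtain ⟨m, hm0, _, hm2, _⟩ := exists_plane h.neg hb
      exact ⟨ℓ, m, h0, hm0, hv, hp, hm2, hcr⟩

/-- A vector outside two hyperplanes. -/
lemma exists_outside {ℓ m : E →L[ℝ] ℝ} (hℓ : ℓ ≠ 0) (hm : m ≠ 0) : ∃ w, ℓ w ≠ 0 ∧ m w ≠ 0 := by
  obtain ⟨a, ha⟩ : ∃ a, ℓ a ≠ 0 := by
    by_contra hcon; push Not at hcon; exact hℓ (ContinuousLinearMap.ext hcon)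
  obtain ⟨c, hc⟩ : ∃ c, m c ≠ 0 := by
    by_contra hcon; push Not at hcon; exact hm (ContinuousLinearMap.ext hcon)
  by_cases h1 : m a = 0
  · by_cases h2 : ℓ c = 0
    · exact ⟨a + c, by rw [map_add, h2, add_zero]; exact ha, by rw [map_add, h1, zero_add]; exact hc⟩
    · exact ⟨c, h2, hc⟩
  · exact ⟨a, ha, h1⟩

/-- End points of a planar fibre are bad. -/
lemma endpoint [FiniteDimensional ℝ E] {φ : E → ℝ} (h : Sel φ) {y : ℝ} (hy : Reg φ y) {v d : E}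
    (hv : v ≠ 0) (hvy : φ v = y) (hvF : v ∉ FF φ) {f : E →L[ℝ] ℝ} (hf0 : f ≠ 0)
    (hf : ∀ u, u ≠ 0 → φ u = y → f u = 0) {ε : ℝ} (hε : 0 < ε)
    (hf' : ∀ u ∈ ball v ε, f u = 0 → φ u = y) (hvd : Ind v d) (hfd : f d = 0) :
    ∃ α γ : ℝ, 0 < γ ∧ α • v + γ • d ∈ FF φ ∧ φ (α • v + γ • d) = y := by
  have hfv : f v = 0 := hf v hv hvy
  let S : Set E := {u | ∃ α γ : ℝ, 0 < γ ∧ u = α • v + γ • d}
  have hScon : Convex ℝ S := by
    rintro _ ⟨α, γ, hγ, rfl⟩ _ ⟨α', γ', hγ', rfl⟩ a c ha hc hac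
    refine ⟨a * α + c * α', a * γ + c * γ', ?_, ?_⟩
    · rcases ha.eq_or_lt with h' | h'
      · have : c = 1 := by linarith
        rw [← h', this]; linarith
      · nlinarith [mul_pos h' hγ, mul_nonneg hc hγ'.le]
    · module
  have hSf : ∀ u ∈ S, f u = 0 := by
    rintro _ ⟨α, γ, _, rfl⟩
    rw [map_add, map_smul, map_smul, hfv, hfd]; simp
  have hS0 : (0 : E) ∉ S := by
    rintro ⟨α, γ, hγ, h'⟩
    have := (hvd α γ h'.symm).2
    linarith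
  by_contra hcon
  push Not at hcon
  have hall := h.clopen hy hf0 hf hScon.isPreconnected hSf hS0 (by
    have hcont : ContinuousAt (fun δ : ℝ => v + δ • d) 0 := by fun_prop
    have h1 : ∀ᶠ δ in 𝓝 (0:ℝ), v + δ • d ∈ ball v ε := by
      apply hcont.eventually_mem
      rw [zero_smul, add_zero]; exact ball_mem_nhds v hε
    have h1' : ∀ᶠ δ in 𝓝[>] (0:ℝ), v + δ • d ∈ ball v ε := h1.filter_mono nhdsWithin_le_nhds
    obtain ⟨δ, hδ1, hδ2⟩ := (h1'.and self_mem_nhdsWithin).exists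
    exact ⟨v + δ • d, ⟨1, δ, hδ2, by rw [one_smul]⟩, hf' _ hδ1 (by
      rw [map_add, map_smul, hfv, hfd]; simp)⟩)
    (by
      rintro _ ⟨α, γ, hγ, rfl⟩ huy hF
      exact hcon α γ hγ hF huy)
  have hcl : -v ∈ closure {u | φ u = y} := by
    have hlim : Tendsto (fun δ : ℝ => (-1 : ℝ) • v + δ • d) (𝓝[>] 0) (𝓝 (-v)) := by
      have hc : Continuous (fun δ : ℝ => (-1 : ℝ) • v + δ • d) := by fun_prop
      have := (hc.tendsto 0).mono_left (nhdsWithin_le_nhds (s := Ioi 0))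
      simpa using this
    apply mem_closure_of_tendsto hlim
    filter_upwards [self_mem_nhdsWithin] with δ hδ
    exact hall _ ⟨-1, δ, hδ, rfl⟩
  have := h.level (neg_ne_zero.mpr hv) hcl
  exact h.antipodal hv (hvy.trans this.symm)

end Pool.Agent.H806R2.UM
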