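import Pool.Agent.H806R2.UM5

set_option autoImplicit false

namespace Pool.Agent.H806R2.UM

open Filter Topology Set Metric

variable {E : Type} [NormedAddCommGroup E] [NormedSpace ℝ E]

/-- The data at a good bad point. -/
structure Data (φ : E → ℝ) (v₀ w : E) (β n : ℝ) (ℓ m : E →L[ℝ] ℝ) : Prop where
  v0 : v₀ ≠ 0
  bd : φ v₀ ≤ n
  lv : ℓ v₀ = 0
  lF : ∀ p ∈ Fp φ, ℓ p = 0
  mF : ∀ p ∈ Fp (fun v => -φ v), m p = 0
  lw : ℓ w ≠ 0
  mw : m w ≠ 0
  pos : 0 < β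
  good : ∀ t ∈ Ioo 0 β, v₀ + t • w ≠ 0 ∧ v₀ + t • w ∉ FF φ
  lim : Tendsto (fun t : ℝ => φ (v₀ + t • w)) (𝓝[>] 0) atTop

lemma exists_data [FiniteDimensional ℝ E] {φ : E → ℝ} (h : Sel φ) {v₀ : E} {ρ n : ℝ}
    (b : BP φ v₀ ρ n) : ∃ (w : E) (β : ℝ) (ℓ m : E →L[ℝ] ℝ), Data φ v₀ w β n ℓ m := by
  obtain ⟨ℓ, m, hℓ, hm, hℓv, hℓF, hmF, hcr⟩ := two_planes h b
  obtain ⟨w, hw1, hw2⟩ := exists_outside hℓ hm
  have hbd : φ v₀ ≤ n := le_of_abs_le b.center
  rcases sign_choice (hcr w hw1) with hs | hs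
  · obtain ⟨β, hβ, hg, hlim⟩ := blowup h b hs
    exact ⟨w, β, ℓ, m, b.mem.1, hbd, hℓv, hℓF, hmF, hw1, hw2, hβ, fun t ht =>
      ⟨fun h' => b.zero (h' ▸ (hg t ht).1), (hg t ht).2⟩, hlim⟩
  · obtain ⟨β, hβ, hg, hlim⟩ := blowup h b hs
    exact ⟨-w, β, ℓ, m, b.mem.1, hbd, hℓv, hℓF, hmF, by rwa [map_neg, neg_ne_zero],
      by rwa [map_neg, neg_ne_zero], hβ, fun t ht =>
      ⟨fun h' => b.zero (h' ▸ (hg t ht).1), (hg t ht).2⟩, hlim⟩

section
variable [FiniteDimensional ℝ E] {φ : E → ℝ} {v₀ w : E} {β n : ℝ} {ℓ m : E →L[ℝ] ℝ}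

lemma Data.crossing (hfr : Module.finrank ℝ E = 3) (h : Sel φ)
    (D : Data φ v₀ w β n ℓ m) {p : E} (hp : p ∈ Fp φ)
    (hind : Ind v₀ p) {α γ : ℝ} (hα : 0 < α) (hγ : 0 < γ) :
    ∀ δ : ℝ, 0 < δ → ∀ C : ℝ, ∃ t : ℝ, |t| < δ ∧ C < φ ((α • v₀ + γ • p) + t • w) := by
  intro δ hδ C
  obtain ⟨u, hu, hφu, hu0⟩ := seq_of_Fp hp
  obtain ⟨t, ht, ht'⟩ := attain_seq D.pos (line_cont h D.good) D.lim hφu
  obtain ⟨c₀, c₁, c₂, hc, h0, h1, h2⟩ := coords hfr hind D.lv (D.lF p hp) D.lw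
  have hc0 : Tendsto (fun k => c₀ (u k)) atTop (𝓝 0) := by
    rw [← h0]; exact (c₀.continuous.tendsto p).comp hu
  have hc1 : Tendsto (fun k => c₁ (u k)) atTop (𝓝 1) := by
    rw [← h1]; exact (c₁.continuous.tendsto p).comp hu
  have hc2 : Tendsto (fun k => c₂ (u k)) atTop (𝓝 0) := by
    rw [← h2]; exact (c₂.continuous.tendsto p).comp hu
  have hb : Tendsto (fun k => γ / c₁ (u k)) atTop (𝓝 γ) := by
    have := (tendsto_const_nhds (x := γ)).div hc1 one_ne_zero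
    rwa [div_one] at this
  have ha : Tendsto (fun k => α - γ / c₁ (u k) * c₀ (u k)) atTop (𝓝 α) := by
    have := (tendsto_const_nhds (x := α)).sub (hb.mul hc0)
    rwa [mul_zero, sub_zero] at this
  have hτ : Tendsto (fun k => (α - γ / c₁ (u k) * c₀ (u k)) * t k + γ / c₁ (u k) * c₂ (u k))
      atTop (𝓝 0) := by
    have := (ha.mul ht).add (hb.mul hc2)
    rwa [mul_zero, mul_zero, add_zero] at this
  have hτ' := hτ.abs
  rw [abs_zero] at hτ'
  obtain ⟨k, hk⟩ := (((((ht'.and (hb.eventually_const_lt hγ)).and (ha.eventually_const_lt hα)).and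
    (hτ'.eventually_lt_const hδ)).and (hφu.eventually_gt_atTop C)).and
    (hc1.eventually_ne one_ne_zero)).exists
  obtain ⟨⟨⟨⟨⟨hk1, hk2⟩, hk3⟩, hk4⟩, hk5⟩, hk6⟩ := hk
  refine ⟨_, hk4, ?_⟩
  have hcomb := h.comb (D.good _ hk1.1).1 (hu0 k) hk1.2 hk3 hk2
  have hvec : (α - γ / c₁ (u k) * c₀ (u k)) • (v₀ + t k • w) + (γ / c₁ (u k)) • u k =
      (α • v₀ + γ • p) +
        ((α - γ / c₁ (u k) * c₀ (u k)) * t k + γ / c₁ (u k) * c₂ (u k)) • w := by
    have e1 : γ / c₁ (u k) * c₁ (u k) = γ := div_mul_cancel₀ _ hk6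
    have e2 := hc (u k)
    calc _ = (α - γ / c₁ (u k) * c₀ (u k)) • (v₀ + t k • w) +
          (γ / c₁ (u k)) • (c₀ (u k) • v₀ + c₁ (u k) • p + c₂ (u k) • w) := by rw [e2]
      _ = α • v₀ + (γ / c₁ (u k) * c₁ (u k)) • p +
          ((α - γ / c₁ (u k) * c₀ (u k)) * t k + γ / c₁ (u k) * c₂ (u k)) • w := by module
      _ = _ := by rw [e1]
  rw [← hvec, hcomb.2, hk1.2]
  exact hk5

omit [FiniteDimensional ℝ E] in
lemma Data.noF (D : Data φ v₀ w β n ℓ m) {p : E} (hp : p ∈ Fp φ)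
    (hind : Ind v₀ p) {α γ : ℝ} (hα : 0 < α) :
    (∀ t : ℝ, (α • v₀ + γ • p) + t • w ≠ 0) ∧
    ∃ τ > 0, ∀ t : ℝ, t ≠ 0 → |t| < τ → (α • v₀ + γ • p) + t • w ∉ FF φ := by
  have hℓ : ∀ t : ℝ, ℓ ((α • v₀ + γ • p) + t • w) = 0 → t = 0 := by
    intro t ht
    simp only [map_add, map_smul, D.lv, D.lF p hp, smul_eq_mul, mul_zero, zero_add] at ht
    exact (mul_eq_zero.mp ht).resolve_right D.lw
  constructor
  · intro t h0
    have ht := hℓ t (by rw [h0, map_zero])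
    rw [ht, zero_smul, add_zero] at h0
    exact hα.ne' (hind _ _ h0).1
  · by_cases hm : m (α • v₀ + γ • p) = 0
    · refine ⟨1, one_pos, fun t ht _ hF => ?_⟩
      rcases hF with hF | hF
      · exact ht (hℓ t (D.lF _ hF))
      · have := D.mF _ hF
        rw [map_add, hm, map_smul, zero_add, smul_eq_mul] at this
        exact ht ((mul_eq_zero.mp this).resolve_right D.mw)
    · refine ⟨|m (α • v₀ + γ • p) / m w|, abs_pos.mpr (div_ne_zero hm D.mw),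
        fun t ht htτ hF => ?_⟩
      rcases hF with hF | hF
      · exact ht (hℓ t (D.lF _ hF))
      · have := D.mF _ hF
        rw [map_add, map_smul, smul_eq_mul] at this
        have h2 : m (α • v₀ + γ • p) / m w = -t := by
          rw [div_eq_iff D.mw]; linarith
        rw [h2, abs_neg] at htτ
        exact lt_irrefl _ htτ

omit [FiniteDimensional ℝ E] in
lemma ray (h : Sel φ) {q w : E} {τ : ℝ} (hτ : 0 < τ)
    (hg : ∀ t ∈ Ioo 0 τ, q + t • w ≠ 0 ∧ q + t • w ∉ FF φ)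
    (hu : ∀ β : ℝ, 0 < β → ∀ C : ℝ, ∃ t ∈ Ioo 0 β, C < φ (q + t • w)) :
    Tendsto (fun t : ℝ => φ (q + t • w)) (𝓝[>] 0) atTop := by
  have hcont : Continuous (fun t : ℝ => q + t • w) := by fun_prop
  obtain ⟨β, _, _, _, hlim⟩ := gap_lemma (ψ := fun t => φ (q + t • w)) (τ := τ) (n := 0)
    (K := ∅) hτ isClosed_empty
    (fun t ht _ => ContinuousAt.comp (f := fun t : ℝ => q + t • w) (h.cont (hg t ht).1 (hg t ht).2)
        hcont.continuousAt)
    (fun t _ htK => absurd htK (Set.notMem_empty t))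
    (fun t ht s x hs hx => h.closed _ (hg t ht).1 (fun k => q + s k • w) x
      ((hcont.tendsto t).comp hs) hx)
    (fun s₁ h₁ s₂ h₂ s hs₁ hs₂ heq => (h.fibre_line (hg s₁ h₁).1 (hg s₂ h₂).1 hs₁ hs₂ heq).2)
    hu
  exact hlim

lemma Data.noCone (hfr : Module.finrank ℝ E = 3) (h : Sel φ)
    (D : Data φ v₀ w β n ℓ m) {p : E} (hp : p ∈ Fp φ)
    (hind : Ind v₀ p) {a b : ℝ} (ha : 0 < a) (hb : 0 < b) {t₁ : ℝ} (ht₁ : t₁ ∈ Ioo 0 β) :
    φ (a • v₀ + b • p) ≠ φ (v₀ + t₁ • w) := by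
  intro heq
  have ha2 : 0 < a / 2 := by linarith
  obtain ⟨hne, τ, hτ, hF⟩ := D.noF hp hind (γ := b) ha2
  have hvc := line_cont h D.good
  have hcr := sign_choice (D.crossing hfr h hp hind ha2 hb)
  obtain ⟨q, hq⟩ : ∃ q, q = (a / 2) • v₀ + b • p := ⟨_, rfl⟩
  rw [← hq] at hne hF hcr
  rcases hcr with hs | hs
  · -- blow-up on the side of w
    have hg : ∀ t ∈ Ioo 0 τ, q + t • w ≠ 0 ∧ q + t • w ∉ FF φ := fun t ht =>
      ⟨hne t, hF t ht.1.ne' (by rw [abs_of_pos ht.1]; exact ht.2)⟩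
    have hlim := ray h hτ hg hs
    have hqc := line_cont h hg
    obtain ⟨z, hz⟩ := exists_gt (max (φ (v₀ + t₁ • w)) (φ (q + (τ / 2) • w)))
    have hz1 := (le_max_left _ _).trans_lt hz
    have hz2 := (le_max_right _ _).trans_lt hz
    obtain ⟨t', ht', ht'z⟩ := attain hvc D.lim ht₁ hz1
    obtain ⟨s', hs', hs'z⟩ := attain hqc hlim (t := τ / 2) ⟨by linarith, by linarith⟩ hz2
    have hd : 0 < t₁ - t' := sub_pos.mpr ht'.2
    obtain ⟨A, hA⟩ : ∃ A, A = (a / 2 * t' + s') / (t₁ - t') := ⟨_, rfl⟩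
    have hApos : 0 < A := by
      rw [hA]
      exact div_pos (add_pos (mul_pos ha2 ht'.1) hs'.1) hd
    have hAe : A * (t₁ - t') = a / 2 * t' + s' := by
      rw [hA]; exact div_mul_cancel₀ _ hd.ne'
    have he0 : a • v₀ + b • p ≠ 0 := fun h0 => ha.ne' (hind _ _ h0).1
    have c1 := h.comb (D.good _ ht₁).1 he0 heq.symm hApos one_pos
    have c2 := h.comb (D.good t' ⟨ht'.1, ht'.2.trans ht₁.2⟩).1
      (hg s' ⟨hs'.1, by linarith [hs'.2]⟩).1 (ht'z.trans hs'z.symm) (add_pos hApos ha2) one_pos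
    have hvec : A • (v₀ + t₁ • w) + (1:ℝ) • (a • v₀ + b • p) =
        (A + a / 2) • (v₀ + t' • w) + (1:ℝ) • (q + s' • w) := by
      calc A • (v₀ + t₁ • w) + (1:ℝ) • (a • v₀ + b • p) =
            (A + a) • v₀ + b • p + (A * t₁) • w := by module
        _ = (A + a) • v₀ + b • p + ((A + a / 2) * t' + s') • w := by
            rw [show A * t₁ = (A + a / 2) * t' + s' by linarith]
        _ = _ := by rw [hq]; module
    rw [hvec, c2.2, ht'z] at c1
    rw [← c1.2] at hz1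
    exact lt_irrefl _ hz1
  · have hg : ∀ t ∈ Ioo 0 τ, q + t • (-w) ≠ 0 ∧ q + t • (-w) ∉ FF φ := by
      intro t ht
      have e : t • (-w) = (-t) • w := by module
      rw [e]
      exact ⟨hne _, hF _ (neg_ne_zero.mpr ht.1.ne') (by rw [abs_neg, abs_of_pos ht.1]; exact ht.2)⟩
    have hlim := ray h hτ hg hs
    have hqc := line_cont h hg
    have hβ := D.pos
    obtain ⟨z, hz⟩ := exists_gt (max (φ (v₀ + (β / 2) • w)) (φ (q + (τ / 2) • (-w))))
    have hz1 := (le_max_left _ _).trans_lt hz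
    have hz2 := (le_max_right _ _).trans_lt hz
    obtain ⟨t, ht, htz⟩ := attain hvc D.lim (t := β / 2) ⟨by linarith, by linarith⟩ hz1
    obtain ⟨s, hs, hsz⟩ := attain hqc hlim (t := τ / 2) ⟨by linarith, by linarith⟩ hz2
    have htβ : t ∈ Ioo 0 β := ⟨ht.1, by linarith [ht.2]⟩
    have hsτ : s ∈ Ioo 0 τ := ⟨hs.1, by linarith [hs.2]⟩
    obtain ⟨t', ht', ht'z⟩ := attain hvc D.lim htβ (Z := z + 1) (by rw [htz]; linarith)
    obtain ⟨s', hs', hs'z⟩ := attain hqc hlim hsτ (Z := z + 1) (by rw [hsz]; linarith)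
    have c1 := h.comb (D.good t htβ).1 (hg s hsτ).1 (htz.trans hsz.symm) (sub_pos.mpr hs'.2)
      (sub_pos.mpr ht'.2)
    have c2 := h.comb (D.good t' ⟨ht'.1, ht'.2.trans htβ.2⟩).1 (hg s' ⟨hs'.1, hs'.2.trans hsτ.2⟩).1
      (ht'z.trans hs'z.symm) (sub_pos.mpr hs'.2) (sub_pos.mpr ht'.2)
    have hvec : (s - s') • (v₀ + t • w) + (t - t') • (q + s • (-w)) =
        (s - s') • (v₀ + t' • w) + (t - t') • (q + s' • (-w)) := by module
    rw [hvec, c2.2, ht'z, htz] at c1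
    linarith [c1.2]

omit [FiniteDimensional ℝ E] in
lemma Data.ind (h : Sel φ) (D : Data φ v₀ w β n ℓ m) {e : E} (he : e ∈ Fp φ) {t : ℝ}
    (ht : t ∈ Ioo 0 β) (het : φ e = φ (v₀ + t • w)) (hn : n < φ e) (hw : φ e ≠ φ w) :
    Ind v₀ e := by
  have hw0 : w ≠ 0 := by rintro rfl; exact D.lw (map_zero _)
  intro x y hxy
  by_cases hy : y = 0
  · rw [hy, zero_smul, add_zero] at hxy
    exact ⟨(smul_eq_zero.mp hxy).resolve_right D.v0, hy⟩
  exfalso
  have hec : e = (-x / y) • v₀ := by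
    have h1 : y • e = (-x) • v₀ := by
      have : y • e = (x • v₀ + y • e) + (-x) • v₀ := by module
      rw [this, hxy, zero_add]
    have h2 : e = y⁻¹ • (y • e) := by rw [smul_smul, inv_mul_cancel₀ hy, one_smul]
    rw [h2, h1, smul_smul]
    congr 1
    field_simp
  obtain ⟨c, hc⟩ : ∃ c, c = -x / y := ⟨_, rfl⟩
  rw [← hc] at hec
  rcases lt_trichotomy c 0 with h1 | h1 | h1
  · have c1 := h.comb (D.good t ht).1 he.1 het.symm one_pos (b := -c⁻¹)
      (by rw [neg_pos, inv_lt_zero]; exact h1)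
    have hvec : (1:ℝ) • (v₀ + t • w) + (-c⁻¹) • e = t • w := by
      rw [hec]
      have e1 : c⁻¹ * c = 1 := inv_mul_cancel₀ h1.ne
      calc (1:ℝ) • (v₀ + t • w) + (-c⁻¹) • (c • v₀) = v₀ + t • w - (c⁻¹ * c) • v₀ := by module
        _ = t • w := by rw [e1]; module
    rw [hvec, h.smul t w ht.1 hw0] at c1
    exact hw (het.trans c1.2.symm)
  · rw [h1, zero_smul] at hec
    exact he.1 hec
  · rw [hec, h.smul c v₀ h1 D.v0] at hn
    linarith [D.bd]

lemma ker_coords (hfr : Module.finrank ℝ E = 3) {a b w : E} (hab : Ind a b)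
    {ℓ : E →L[ℝ] ℝ} (ha : ℓ a = 0) (hb : ℓ b = 0) (hw : ℓ w ≠ 0) {u : E} (hu : ℓ u = 0) :
    ∃ x y : ℝ, u = x • a + y • b := by
  obtain ⟨c₀, c₁, c₂, hc, _, _, _⟩ := coords hfr hab ha hb hw
  refine ⟨c₀ u, c₁ u, ?_⟩
  have h1 := hc u
  have h2 := congrArg ℓ h1
  simp only [map_add, map_smul, ha, hb, hu, smul_eq_mul, mul_zero, zero_add] at h2
  rw [(mul_eq_zero.mp h2).resolve_right hw, zero_smul, add_zero] at h1
  exact h1.symm

lemma Data.sign (hfr : Module.finrank ℝ E = 3) (h : Sel φ) (D : Data φ v₀ w β n ℓ m) {e e' : E}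
    (he : e ∈ Fp φ) (he' : e' ∈ Fp φ) {t t' : ℝ} (ht : t ∈ Ioo 0 β) (ht' : t' ∈ Ioo 0 β)
    (het : φ e = φ (v₀ + t • w)) (het' : φ e' = φ (v₀ + t' • w)) (hne : φ e ≠ φ e')
    (hi : Ind v₀ e) (hi' : Ind v₀ e') {a b : ℝ} (hab : e' = a • v₀ + b • e) : b < 0 := by
  by_contra hb
  rcases (not_lt.mp hb).eq_or_lt with hb0 | hb0
  · rw [← hb0, zero_smul, add_zero] at hab
    have := (hi' a (-1) (by rw [hab]; module)).2
    norm_num at this
  · rcases lt_trichotomy a 0 with h1 | h1 | h1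
    · have hee : e = (-a / b) • v₀ + (1 / b) • e' := by
        rw [hab]
        have e1 : 1 / b * b = 1 := by field_simp
        calc e = (1:ℝ) • e := (one_smul _ _).symm
          _ = (1 / b * b) • e := by rw [e1]
          _ = _ := by
            have e2 : -a / b = -(1 / b * a) := by ring
            rw [e2]; module
      apply D.noCone hfr h he' hi' (a := -a / b) (b := 1 / b) (div_pos (by linarith) hb0)
        (by positivity) ht
      rw [← hee, het]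
    · rw [h1, zero_smul, zero_add] at hab
      rw [hab, h.smul b e hb0 he.1] at hne
      exact hne rfl
    · apply D.noCone hfr h he hi h1 hb0 ht'
      rw [← hab, het']

lemma good_aux (hfr : Module.finrank ℝ E = 3) (h : Sel φ)
    (hmF : ∀ p ∈ Fp (fun v => -φ v), m p = 0) {v : E} (hv : v ≠ 0) (hvF : v ∉ FF φ)
    (hreg : Reg φ (φ v)) (hG : ∀ e ∈ Fp φ, φ e ≠ φ v) : m v = 0 := by
  obtain ⟨f, hf0, hf1, ε, hε, hf2⟩ := h.reg_plane hreg hv rfl hvF
  have hfv : f v = 0 := hf1 _ hv rfl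
  -- a second vector of the kernel
  obtain ⟨d, hfd, hvd⟩ : ∃ d, f d = 0 ∧ Ind v d := by
    have hrk : 1 < Module.finrank ℝ (LinearMap.ker (f : E →ₗ[ℝ] ℝ)) := by
      have h1 := LinearMap.finrank_range_add_finrank_ker (f : E →ₗ[ℝ] ℝ)
      have h2 : Module.finrank ℝ (LinearMap.range (f : E →ₗ[ℝ] ℝ)) ≤ 1 := by
        have := Submodule.finrank_le (LinearMap.range (f : E →ₗ[ℝ] ℝ))
        simpa using this
      omega
    have hx : (⟨v, hfv⟩ : LinearMap.ker (f : E →ₗ[ℝ] ℝ)) ≠ 0 := by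
      intro h0
      exact hv (congrArg Subtype.val h0)
    obtain ⟨y, hy⟩ := exists_linearIndependent_pair_of_one_lt_finrank hrk hx
    refine ⟨y, y.2, ?_⟩
    intro a b hab
    rw [LinearIndependent.pair_iff] at hy
    apply hy a b
    apply Subtype.ext
    simpa using hab
  have hvd' : Ind v (-d) := by
    intro a b hab
    obtain ⟨h1, h2⟩ := hvd a (-b) (by rw [← hab]; module)
    exact ⟨h1, by linarith⟩
  obtain ⟨α, γ, hγ, heF, hey⟩ := endpoint h hreg hv rfl hvF hf0 hf1 hε hf2 hvd hfd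
  obtain ⟨α', γ', hγ', heF', hey'⟩ := endpoint h hreg hv rfl hvF hf0 hf1 hε hf2 hvd'
    (by rw [map_neg, hfd, neg_zero])
  have hm1 : m (α • v + γ • d) = 0 := by
    rcases heF with hh | hh
    · exact absurd hey (hG _ hh)
    · exact hmF _ hh
  have hm2 : m (α' • v + γ' • (-d)) = 0 := by
    rcases heF' with hh | hh
    · exact absurd hey' (hG _ hh)
    · exact hmF _ hh
  simp only [map_add, map_smul, map_neg, smul_eq_mul] at hm1 hm2
  have hcoef : (α * γ' + α' * γ) * m v = 0 := by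
    linear_combination γ' * hm1 + γ * hm2
  rcases mul_eq_zero.mp hcoef with h0 | h0
  · exfalso
    have c1 := h.comb (FF_ne_zero heF) (FF_ne_zero heF') (hey.trans hey'.symm) hγ' hγ
    apply c1.1
    calc γ' • (α • v + γ • d) + γ • (α' • v + γ' • (-d)) = (α * γ' + α' * γ) • v := by module
      _ = 0 := by rw [h0, zero_smul]
  · exact h0

lemma Data.good_t (hfr : Module.finrank ℝ E = 3) (h : Sel φ) (D : Data φ v₀ w β n ℓ m) {t : ℝ}
    (ht : t ∈ Ioo 0 β) (hreg : Reg φ (φ (v₀ + t • w)))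
    (hG : ∀ e ∈ Fp φ, φ e ≠ φ (v₀ + t • w)) : m (v₀ + t • w) = 0 :=
  good_aux hfr h D.mF (D.good t ht).1 (D.good t ht).2 hreg hG

theorem Data.false (hfr : Module.finrank ℝ E = 3) (h : Sel φ) (D : Data φ v₀ w β n ℓ m) :
    False := by
  haveI : ProperSpace E := FiniteDimensional.proper_real E
  have hβ := D.pos
  obtain ⟨z₀, hz₀⟩ := exists_gt (max (max n (φ w)) (max (φ (v₀ + (β / 2) • w))
    (φ (v₀ + (-(m v₀) / m w) • w))))
  have hz1 : n < z₀ := ((le_max_left _ _).trans (le_max_left _ _)).trans_lt hz₀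
  have hz2 : φ w < z₀ := ((le_max_right _ _).trans (le_max_left _ _)).trans_lt hz₀
  have hz3 : φ (v₀ + (β / 2) • w) < z₀ := ((le_max_left _ _).trans (le_max_right _ _)).trans_lt hz₀
  have hz4 : φ (v₀ + (-(m v₀) / m w) • w) < z₀ :=
    ((le_max_right _ _).trans (le_max_right _ _)).trans_lt hz₀
  have key : ∀ y, z₀ < y → Reg φ y → ∃ t ∈ Ioo 0 β, φ (v₀ + t • w) = y ∧
      ∃ e ∈ Fp φ, φ e = y ∧ Ind v₀ e := by
    intro y hy hreg
    obtain ⟨t, ht, hty⟩ := attain (line_cont h D.good) D.lim (t := β / 2)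
      ⟨by linarith, by linarith⟩ (hz3.trans hy)
    have htβ : t ∈ Ioo 0 β := ⟨ht.1, by linarith [ht.2]⟩
    refine ⟨t, htβ, hty, ?_⟩
    by_contra hcon
    have hG : ∀ e ∈ Fp φ, φ e ≠ φ (v₀ + t • w) := by
      intro e he hee
      apply hcon
      refine ⟨e, he, hee.trans hty, ?_⟩
      exact D.ind h he htβ hee (by rw [hee, hty]; linarith) (by rw [hee, hty]; linarith)
    have hm := D.good_t hfr h htβ (by rw [hty]; exact hreg) hG
    rw [map_add, map_smul, smul_eq_mul] at hm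
    have ht2 : t = -(m v₀) / m w := by
      rw [eq_div_iff D.mw]; linarith
    rw [← ht2, hty] at hz4
    linarith
  obtain ⟨y₁, hy₁, hr₁⟩ := exists_reg φ (show z₀ < z₀ + 1 by linarith)
  obtain ⟨y₂, hy₂, hr₂⟩ := exists_reg φ (show z₀ + 1 < z₀ + 2 by linarith)
  obtain ⟨y₃, hy₃, hr₃⟩ := exists_reg φ (show z₀ + 2 < z₀ + 3 by linarith)
  obtain ⟨t₁, ht₁, hty₁, e₁, he₁, hey₁, hi₁⟩ := key y₁ hy₁.1 hr₁
  obtain ⟨t₂, ht₂, hty₂, e₂, he₂, hey₂, hi₂⟩ := key y₂ (by linarith [hy₂.1]) hr₂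
  obtain ⟨t₃, ht₃, hty₃, e₃, he₃, hey₃, hi₃⟩ := key y₃ (by linarith [hy₃.1]) hr₃
  obtain ⟨a₂, b₂, hab₂⟩ := ker_coords hfr hi₁ D.lv (D.lF _ he₁) D.lw (D.lF _ he₂)
  obtain ⟨a₃, b₃, hab₃⟩ := ker_coords hfr hi₁ D.lv (D.lF _ he₁) D.lw (D.lF _ he₃)
  have hb₂ := D.sign hfr h he₁ he₂ ht₁ ht₂ (hey₁.trans hty₁.symm) (hey₂.trans hty₂.symm)
    (by rw [hey₁, hey₂]; intro h'; linarith [hy₁.2, hy₂.1]) hi₁ hi₂ hab₂
  have hb₃ := D.sign hfr h he₁ he₃ ht₁ ht₃ (hey₁.trans hty₁.symm) (hey₃.trans hty₃.symm)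
    (by rw [hey₁, hey₃]; intro h'; linarith [hy₁.2, hy₃.1]) hi₁ hi₃ hab₃
  have hab : e₃ = (a₃ - a₂ * (b₃ / b₂)) • v₀ + (b₃ / b₂) • e₂ := by
    rw [hab₂, hab₃]
    have e1 : b₃ / b₂ * b₂ = b₃ := div_mul_cancel₀ _ hb₂.ne
    calc a₃ • v₀ + b₃ • e₁ = a₃ • v₀ + (b₃ / b₂ * b₂) • e₁ := by rw [e1]
      _ = _ := by module
  have hb := D.sign hfr h he₂ he₃ ht₂ ht₃ (hey₂.trans hty₂.symm) (hey₃.trans hty₃.symm)
    (by rw [hey₂, hey₃]; intro h'; linarith [hy₂.2, hy₃.1]) hi₂ hi₃ hab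
  exact absurd hb (not_lt.mpr (div_pos_of_neg_of_neg hb₃ hb₂).le)

end

/-- The bad set is not empty. -/
lemma Sel.FF_nonempty [FiniteDimensional ℝ E] (hfr : Module.finrank ℝ E = 3) {φ : E → ℝ}
    (h : Sel φ) : (FF φ).Nonempty := by
  by_contra hcon
  rw [Set.not_nonempty_iff_eq_empty] at hcon
  have hF : ∀ v, v ∉ FF φ := fun v hv => by rw [hcon] at hv; exact hv
  haveI : Nontrivial E := Module.nontrivial_of_finrank_pos (R := ℝ) (by omega)
  obtain ⟨a, ha⟩ := exists_ne (0 : E)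
  obtain ⟨b, hb⟩ := exists_linearIndependent_pair_of_one_lt_finrank (R := ℝ) (by omega) ha
  rw [LinearIndependent.pair_iff] at hb
  let γ : ℝ → E := fun t => Real.cos t • a + Real.sin t • b
  have hγc : Continuous γ := by fun_prop
  have hγ0 : ∀ t, γ t ≠ 0 := by
    intro t h0
    obtain ⟨h1, h2⟩ := hb _ _ h0
    have := Real.sin_sq_add_cos_sq t
    rw [h1, h2] at this
    norm_num at this
  have hφc : Continuous (fun t => φ (γ t) - φ (-γ t)) := by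
    apply Continuous.sub
    · rw [continuous_iff_continuousAt]
      intro t
      exact ContinuousAt.comp (h.cont (hγ0 t) (hF _)) hγc.continuousAt
    · rw [continuous_iff_continuousAt]
      intro t
      exact ContinuousAt.comp (f := fun t => -γ t) (h.cont (neg_ne_zero.mpr (hγ0 t)) (hF _))
        hγc.neg.continuousAt
  have hπ : γ Real.pi = -γ 0 := by simp [γ]
  have hz : ∃ t, φ (γ t) - φ (-γ t) = 0 := by
    rcases le_total (φ (γ 0) - φ (-γ 0)) 0 with h1 | h1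
    · have := mem_range_of_exists_le_of_exists_ge hφc ⟨0, h1⟩ ⟨Real.pi, by
        rw [hπ, neg_neg]; linarith⟩
      exact this
    · have := mem_range_of_exists_le_of_exists_ge hφc ⟨Real.pi, by
        rw [hπ, neg_neg]; linarith⟩ ⟨0, h1⟩
      exact this
  obtain ⟨t, ht⟩ := hz
  exact h.antipodal (hγ0 t) (sub_eq_zero.mp ht)

/-- No selection with closed graph and convex fibres exists on a three-dimensional space. -/
theorem no_sel [FiniteDimensional ℝ E] (hfr : Module.finrank ℝ E = 3) {φ : E → ℝ}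
    (h : Sel φ) : False := by
  haveI : CompleteSpace E := FiniteDimensional.complete ℝ E
  obtain ⟨p, hp⟩ := h.FF_nonempty hfr
  obtain ⟨v, _, ρ, n, hb | hb⟩ := exists_BP h isOpen_univ ⟨p, hp, mem_univ p⟩
  · obtain ⟨w, β, ℓ, m, D⟩ := exists_data h hb
    exact D.false hfr h
  · obtain ⟨w, β, ℓ, m, D⟩ := exists_data h.neg hb
    exact D.false hfr h.neg

end Pool.Agent.H806R2.UM
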